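import Pool.Graph.R_pool_sql_team_seeded_3997aac3.Results.MP_6e34ef_nt.ValuesOfOneBelyiMap
import Pool.Agent.H423.SH.Den

/-!
# The uniform abc conjecture and the size of the clusters of its exceptions

If the uniform abc inequality with exponent `1 + ε₀` fails, then for every small `ε` and every `C`
there are exponentially many, at least `exp (c / ε)`, exceptions to the inequality with exponent
`1 + ε` and constant `C` over ONE number field, which have the same height up to a bounded error and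
the same denominators outside an integer; the error and the integer do not depend on the field and on
`C`.

Proof. For all integers `m_1, …, m_k ≥ 1` there are `(k - 1)!` points `(z_1 : … : z_k)` over the
algebraic numbers with `∑ m_i z_i ^ j = 0` for `1 ≤ j < k`. For `m_i = 1` the `z_i` are the `k`-th
roots of unity in some order, and the points can be continued in the weights `m_i`. So there are
exponentially many polynomials `f = 1 - ∏ (1 - z_i X) ^ m_i`, `z_1 = 1`, of degree `D = ∑ m_i`, which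
are divisible by `X ^ k` (Shabat polynomials, their trees have diameter four). The exceptions are the
values of these polynomials at one exception.
-/

set_option autoImplicit false

open NumberField Polynomial Height

namespace Pool.Agent.Results.MP_6e34ef_nt.ExponentialClusters

section defs

variable {K : Type} [Field K] [NumberField K]

/-- `log H(a, b, c)`: the height of the point `(a : b : c)`, normalised by the degree of `K` -/
noncomputable def logH (a b c : K) : ℝ := logHeight ![a, b, c] / Module.finrank ℚ K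

/-- `log N(a, b, c)`: the sum of `log #(𝓞 K / 𝔭) / [K : ℚ]` over the primes at which two of the
absolute values of `a`, `b`, `c` differ -/
noncomputable def logN (a b c : K) : ℝ :=
  (∑ᶠ v ∈ {v : FinitePlace K | ¬ (v a = v b ∧ v b = v c)},
    Real.log ((Ideal.absNorm v.maximalIdeal.asIdeal : ℕ) : ℝ)) / Module.finrank ℚ K

variable (K) in
/-- `log δ_K`: the logarithm of the root discriminant -/
noncomputable def logδ : ℝ := Real.log |(discr K : ℝ)| / Module.finrank ℚ K

/-- `W` is a cluster of exceptions: all `x` in `W` are different from `0` and `1` and the triple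
`(x, 1 - x, -1)` violates the inequality `log H ≤ (1 + ε) (log δ_K + log N) + C`; the heights of any
two of them differ by at most `A`; and any two of them have the same denominators at all primes of
`K` which do not divide `n`. -/
def Cluster (ε C A : ℝ) (n : ℕ) (W : Finset K) : Prop :=
  (∀ x ∈ W, x ≠ 0 ∧ x ≠ 1 ∧
    (1 + ε) * (logδ K + logN x (1 - x) (-1)) + C < logH x (1 - x) (-1)) ∧
  (∀ x ∈ W, ∀ y ∈ W, logH x (1 - x) (-1) ≤ logH y (1 - y) (-1) + A) ∧
  ∀ x ∈ W, ∀ y ∈ W, ∀ v : FinitePlace K, v (n : K) = 1 → max 1 (v x) = max 1 (v y)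

end defs

/-- The uniform abc inequality with exponent `1 + ε`. -/
def Inequality (ε : ℝ) : Prop :=
  ∃ C : ℝ, ∀ (K : Type) [Field K] [NumberField K] (a b c : K),
    a ≠ 0 → b ≠ 0 → c ≠ 0 → a + b + c = 0 → logH a b c ≤ (1 + ε) * (logδ K + logN a b c) + C

/-- The uniform abc conjecture. -/
def UniformAbc : Prop := ∀ ε : ℝ, 0 < ε → Inequality ε

/-- There are arbitrarily small `ε` for which the clusters of exceptions have less than
`exp (c / ε)` elements. -/
def SmallClusters (c : ℝ) : Prop :=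
  ∀ δ : ℝ, 0 < δ → ∃ ε : ℝ, 0 < ε ∧ ε < δ ∧ ∀ (A : ℝ) (n : ℕ), 0 < n → ∃ C : ℝ,
    ∀ (K : Type) [Field K] [NumberField K] (W : Finset K), Cluster ε C A n W →
      (W.card : ℝ) < Real.exp (c / ε)

open Pool.Agent.Results.MP_6e34ef_nt.ValuesOfOneBelyiMap (height_low height_up h1_eq)

section lemmas

variable {K : Type} [Field K] [NumberField K]

theorem logN_eq {a b c : K} (hc : c ≠ 0) (h : a + b + c = 0) :
    logN a b c = Real.log (Q265.NF.PP (Q265.BD.UsA ∅ ![0, 1] (-a / c))) / Module.finrank ℚ K :=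
  ValuesOfOneBelyiMap.logN_eq hc h

theorem logN_one (x : K) : logN x (1 - x) (-1) =
    Real.log (Q265.NF.PP (Q265.BD.UsA ∅ ![0, 1] x)) / Module.finrank ℚ K := by
  rw [logN_eq (neg_ne_zero.2 one_ne_zero) (by ring), neg_div_neg_eq, div_one]

theorem logH_one_low (x : K) : logHeight₁ x / Module.finrank ℚ K ≤ logH x (1 - x) (-1) := by
  have h := height_low x (1 - x) (-1)
  rw [h1_eq, neg_div_neg_eq, div_one] at h
  unfold logH
  gcongr

theorem logH_one_up {x : K} (h0 : x ≠ 0) (h1 : x ≠ 1) :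
    logH x (1 - x) (-1) ≤ logHeight₁ x / Module.finrank ℚ K + Real.log 2 := by
  have hn : (0 : ℝ) < Module.finrank ℚ K := by exact_mod_cast Module.finrank_pos
  have h := height_up (a := x) (b := 1 - x) (c := -1) h0 (sub_ne_zero.2 h1.symm)
    (neg_ne_zero.2 one_ne_zero) (by ring)
  rw [h1_eq, neg_div_neg_eq, div_one] at h
  unfold logH
  rw [div_le_iff₀ hn, add_mul, div_mul_cancel₀ _ hn.ne']
  linarith

end lemmas

/-- the arithmetic of the numbers of maps -/
theorem many_enough {n : ℕ} (hn : 8 ≤ n) {N : ℕ} (h : n.centralBinom ≤ 2 * n * N) :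
    Real.exp (((n : ℝ) + 1) / 2) ≤ N := by
  have h1 : (2 : ℕ) ^ (n + 1) ≤ N := by
    have h2 := Nat.four_pow_lt_mul_centralBinom n (by omega)
    have h3 : 4 ^ n ≤ n * (2 * n * N) := h2.le.trans (Nat.mul_le_mul_left _ h)
    have h4 : ∀ n : ℕ, 8 ≤ n → 4 * n ^ 2 ≤ 2 ^ n := by
      intro n hn
      induction n, hn using Nat.le_induction with
      | base => norm_num
      | succ n hn ih =>
        rw [pow_succ 2 n]
        nlinarith
    have h5 := h4 n hn
    have h6 : 2 ^ (n + 1) * (2 * n ^ 2) ≤ N * (2 * n ^ 2) := by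
      calc 2 ^ (n + 1) * (2 * n ^ 2) = 2 ^ n * (4 * n ^ 2) := by ring
        _ ≤ 2 ^ n * 2 ^ n := Nat.mul_le_mul_left _ h5
        _ = 4 ^ n := by
          rw [← mul_pow]
          norm_num
        _ ≤ n * (2 * n * N) := h3
        _ = N * (2 * n ^ 2) := by ring
    exact Nat.le_of_mul_le_mul_right h6 (by positivity)
  have h2 : Real.exp (((n : ℝ) + 1) / 2) ≤ 2 ^ (n + 1) := by
    have h3 : Real.exp (1 / 2) ≤ 2 := by
      have h4 : Real.exp (1 / 2) ^ 2 ≤ 2 ^ 2 := by
        rw [← Real.exp_nat_mul]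
        have := Real.exp_one_lt_d9
        norm_num
        linarith
      exact le_of_sq_le_sq h4 (by norm_num)
    calc Real.exp (((n : ℝ) + 1) / 2) = Real.exp (1 / 2) ^ (n + 1) := by
          rw [← Real.exp_nat_mul]
          congr 1
          push_cast
          ring
      _ ≤ 2 ^ (n + 1) := pow_le_pow_left₀ (Real.exp_pos _).le h3 _
  refine h2.trans ?_
  exact_mod_cast h1

/-- the arithmetic of the inequality for a value -/
theorem arith {ε η D hh E C C1 C2 X Y : ℝ} (hε : 0 < ε) (hη : 0 ≤ η) (hDε : ε * D ≤ η)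
    (hh0 : 0 ≤ hh) (hC1 : 0 ≤ C1) (hC2 : 0 ≤ C2)
    (hsmall : E + |C| + (3 + ε) * (C1 + C2) < (1 - η) * hh)
    (r3 : X ≤ E + (D - 1) * hh + (C1 + C2)) (r1 : D * hh - C1 ≤ Y) : (1 + ε) * X + C < Y := by
  have r4 : X < (D - η) * hh - |C| - (2 + ε) * (C1 + C2) := by
    have e : (D - η) * hh = (1 - η) * hh + (D - 1) * hh := by ring
    have e2 : (3 + ε) * (C1 + C2) = (2 + ε) * (C1 + C2) + (C1 + C2) := by ring
    rw [e]
    linarith
  have r5 : (1 + ε) * X < (1 + ε) * ((D - η) * hh - |C| - (2 + ε) * (C1 + C2)) :=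
    mul_lt_mul_of_pos_left r4 (by linarith)
  have r6 : (1 + ε) * ((D - η) * hh) ≤ D * hh := by
    have e : D * hh - (1 + ε) * ((D - η) * hh) = (η - ε * D + ε * η) * hh := by ring
    have h1 : 0 ≤ (η - ε * D + ε * η) * hh := by
      refine mul_nonneg ?_ hh0
      have : 0 ≤ ε * η := by positivity
      linarith
    linarith
  have r7 : (1 + ε) * ((D - η) * hh - |C| - (2 + ε) * (C1 + C2)) =
      (1 + ε) * ((D - η) * hh) - |C| - ε * |C| - (1 + ε) * ((2 + ε) * (C1 + C2)) := by ring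
  have r8 : 0 ≤ ε * |C| := mul_nonneg hε.le (abs_nonneg C)
  have r9 : C1 ≤ (1 + ε) * ((2 + ε) * (C1 + C2)) := by
    have g0 : 0 ≤ C1 + C2 := by linarith
    have g1 : C1 + C2 ≤ (2 + ε) * (C1 + C2) := by nlinarith
    have g2 : (2 + ε) * (C1 + C2) ≤ (1 + ε) * ((2 + ε) * (C1 + C2)) := by
      have : 0 ≤ (2 + ε) * (C1 + C2) := by positivity
      nlinarith
    linarith
  have r10 := le_abs_self C
  linarith

/-- **Large clusters.** -/
theorem clusters {ε₀ : ℝ} (hε₀ : 0 < ε₀) (hbad : ¬ Inequality ε₀) {ε : ℝ} (hε : 0 < ε)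
    (hεs : 27 * ε * (1 + ε₀) ≤ ε₀) :
    ∃ (A : ℝ) (n : ℕ), 0 < n ∧ ∀ C : ℝ, ∃ (K : Type) (_ : Field K) (_ : NumberField K)
      (W : Finset K), Cluster ε C A n W ∧ Real.exp (ε₀ / (6 * (1 + ε₀)) / ε) ≤ W.card := by
  classical
  obtain ⟨η, hη⟩ : ∃ η : ℝ, η = ε₀ / (1 + ε₀) := ⟨_, rfl⟩
  have h1ε : 0 < 1 + ε₀ := by linarith
  have hη0 : 0 < η := by rw [hη]; positivity
  have hηe : (1 - η) * (1 + ε₀) = 1 := by
    rw [hη]
    field_simp
    ring
  have hη27 : 27 ≤ η / ε := by
    rw [le_div_iff₀ hε, hη, le_div_iff₀ h1ε]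
    linarith
  -- the degree
  obtain ⟨n, hn⟩ : ∃ n : ℕ, n = ⌊η / (3 * ε)⌋₊ := ⟨_, rfl⟩
  have hq : η / (3 * ε) = η / ε / 3 := by
    rw [div_div, mul_comm 3 ε]
  have hn1 : (n : ℝ) ≤ η / (3 * ε) := by
    rw [hn]
    exact Nat.floor_le (by positivity)
  have hn2 : η / (3 * ε) < n + 1 := by
    rw [hn]
    exact Nat.lt_floor_add_one _
  have hn8 : 8 ≤ n := by
    have : (8 : ℝ) < n + 1 := by
      refine lt_of_le_of_lt ?_ hn2
      rw [hq]
      linarith
    have h9 : (8 : ℕ) < n + 1 := by exact_mod_cast this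
    omega
  obtain ⟨F, i1, i2, P, hP1, hP2⟩ := Pool.Agent.H423.SH.exists_many n (by omega)
  obtain ⟨D, hD⟩ : ∃ D : ℕ, D = 3 * n := ⟨_, rfl⟩
  rw [← hD] at hP2
  have hD1 : 1 ≤ D := by omega
  have hDε : ε * D ≤ η := by
    have : (n : ℝ) * (3 * ε) ≤ η := by
      rw [le_div_iff₀ (by positivity)] at hn1
      exact hn1
    rw [hD]
    push_cast
    linarith
  have hcard : Real.exp (ε₀ / (6 * (1 + ε₀)) / ε) ≤ P.card := by
    refine le_trans ?_ (many_enough hn8 hP1)
    rw [Real.exp_le_exp]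
    have h3 : ε₀ / (6 * (1 + ε₀)) / ε = η / (3 * ε) / 2 := by
      rw [hη]
      field_simp
      norm_num
    rw [h3]
    linarith
  obtain ⟨C1, hC1, fam⟩ := Pool.Agent.H423.SH.family hD1 P hP2
  obtain ⟨N, hN, den⟩ := Pool.Agent.H423.SH.den_family hD1 P hP2
  obtain ⟨C2, hC2, cmp⟩ := Q265.BD.compositum ℚ F
  have hlog2 : 0 ≤ Real.log 2 := Real.log_nonneg one_le_two
  refine ⟨2 * C1 + Real.log 2, N, hN, fun C => ?_⟩
  -- the constant for the given exception
  obtain ⟨C0, hC0⟩ : ∃ C0 : ℝ, C0 = (1 + ε₀) * (|C| + (3 + ε) * (C1 + C2)) + Real.log 2 :=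
    ⟨_, rfl⟩
  unfold Inequality at hbad
  push Not at hbad
  obtain ⟨L, j1, j2, a, b, c, ha, hb, hc, habc, hlt⟩ := hbad C0
  obtain ⟨s, hs⟩ : ∃ s : L, s = -a / c := ⟨_, rfl⟩
  have hs0 : s ≠ 0 := by rw [hs]; exact div_ne_zero (neg_ne_zero.2 ha) hc
  have hs1 : s ≠ 1 := by
    rw [hs]
    intro h
    have h7 : -a = c := (div_eq_one_iff_eq hc).1 h
    exact hb (by linear_combination habc + h7)
  obtain ⟨M, k1, k2, k3, k4, k5, k6, k7, -, hdisc⟩ := cmp L
  obtain rfl : k3 = DivisionRing.toRatAlgebra := Subsingleton.elim _ _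
  obtain ⟨nL, hnL⟩ : ∃ nL : ℝ, nL = Module.finrank ℚ L := ⟨_, rfl⟩
  have hnLp : 0 < nL := by
    rw [hnL]
    exact_mod_cast Module.finrank_pos
  obtain ⟨mm, hmm⟩ : ∃ mm : ℝ, mm = Module.finrank L M := ⟨_, rfl⟩
  have hmmp : 0 < mm := by
    rw [hmm]
    exact_mod_cast Module.finrank_pos
  have hQM : (Module.finrank ℚ M : ℝ) = nL * mm := by
    rw [← Module.finrank_mul_finrank ℚ L M, hnL, hmm]
    push_cast
    rfl
  -- the height of the given exception
  obtain ⟨hh, hhh⟩ : ∃ hh : ℝ, hh = logHeight₁ s / nL := ⟨_, rfl⟩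
  have hHs : logHeight₁ s = nL * hh := by
    rw [hhh]
    field_simp
  have hh0 : 0 ≤ hh := by
    rw [hhh]
    have := zero_le_logHeight₁ s
    positivity
  have hup : logH a b c ≤ hh + Real.log 2 := by
    have h7 := height_up ha hb hc habc
    rw [h1_eq, ← hs, hHs, ← hnL] at h7
    unfold logH
    rw [← hnL, div_le_iff₀ hnLp]
    linarith
  obtain ⟨U, hU⟩ : ∃ U : ℝ, U = Real.log (Q265.NF.PP (Q265.BD.UsA ∅ ![0, 1] s)) := ⟨_, rfl⟩
  have hU0 : 0 ≤ U := by rw [hU]; exact Q265.BM.log_PP_nonneg _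
  obtain ⟨δ, hδ⟩ : ∃ δ : ℝ, δ = Real.log |(discr L : ℝ)| := ⟨_, rfl⟩
  have hlogd : ∀ (L : Type) [Field L] [NumberField L], 0 ≤ Real.log |(discr L : ℝ)| := by
    intro L _ _
    refine Real.log_nonneg ?_
    have := Int.one_le_abs (NumberField.discr_ne_zero L)
    exact_mod_cast this
  have hδ0 : 0 ≤ δ := by rw [hδ]; exact hlogd _
  have hgoal : logδ L + logN a b c = (δ + U) / nL := by
    rw [logN_eq hc habc, ← hs, ← hU]
    unfold logδ
    rw [← hδ, ← hnL, add_div]
  rw [hgoal] at hlt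
  obtain ⟨E, hE⟩ : ∃ E : ℝ, E = (δ + U) / nL := ⟨_, rfl⟩
  have hE0 : 0 ≤ E := by rw [hE]; positivity
  have hEn : nL * E = δ + U := by
    rw [hE]
    field_simp
  rw [← hE] at hlt
  -- `(1 + ε₀) (E + |C| + …) < h`
  have hmain : (1 + ε₀) * (E + |C| + (3 + ε) * (C1 + C2)) < hh := by
    have e : (1 + ε₀) * (E + |C| + (3 + ε) * (C1 + C2)) + Real.log 2 =
        (1 + ε₀) * E + ((1 + ε₀) * (|C| + (3 + ε) * (C1 + C2)) + Real.log 2) := by ring
    rw [← hC0] at e
    linarith
  have hsmall : E + |C| + (3 + ε) * (C1 + C2) < (1 - η) * hh := by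
    have h7 : (1 - η) * ((1 + ε₀) * (E + |C| + (3 + ε) * (C1 + C2))) < (1 - η) * hh := by
      refine mul_lt_mul_of_pos_left hmain ?_
      have : 0 < (1 - η) * (1 + ε₀) := by rw [hηe]; exact one_pos
      exact pos_of_mul_pos_left this h1ε.le
    rwa [← mul_assoc, hηe, one_mul] at h7
  have hC0' := abs_nonneg C
  have hbig : C1 < hh := by
    have h7 : (1 - η) * hh ≤ hh := by nlinarith
    have h8 : 0 ≤ (2 + ε) * C1 := by positivity
    have h9 : 0 ≤ (3 + ε) * C2 := by positivity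
    have e : (3 + ε) * (C1 + C2) = C1 + (2 + ε) * C1 + (3 + ε) * C2 := by ring
    rw [e] at hsmall
    linarith
  -- the point over the larger field
  obtain ⟨t, ht⟩ : ∃ t : M, t = algebraMap L M s := ⟨_, rfl⟩
  have hht : logHeight₁ t = mm * (nL * hh) := by
    rw [ht, Q265.BD.ext1, hmm, hHs]
  have hUp : Q265.BD.Up (∅ : Set (FinitePlace L)) M = ∅ := by
    ext w
    constructor
    · rintro ⟨v, hv, -⟩
      exact hv
    · intro h
      exact absurd h (Set.notMem_empty w)
  have hUt : Real.log (Q265.NF.PP (Q265.BD.UsA ∅ ![0, 1] t)) ≤ mm * U := by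
    have h7 := Q265.BD.UsA_up (M := M) (∅ : Set (FinitePlace L)) (a := ![0, 1]) (t := s) (by
      intro i
      fin_cases i
      · exact hs0
      · exact hs1)
    have e1 : (fun i => algebraMap L M ((![0, 1] : Fin 2 → L) i)) = ![0, 1] := by
      funext i
      fin_cases i <;> simp
    rwa [e1, ← ht, ← hmm, ← hU, hUp] at h7
  obtain ⟨δM, hδM⟩ : ∃ δM : ℝ, δM = Real.log |(discr M : ℝ)| := ⟨_, rfl⟩
  rw [← hδM, ← hmm, ← hδ, hQM] at hdisc
  have hnm : 0 < nL * mm := by positivity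
  obtain ⟨hinj, hval⟩ := fam M t (by
    rw [hht, hQM]
    have : nL * mm * C1 < nL * mm * hh := mul_lt_mul_of_pos_left hbig hnm
    linarith)
  -- the properties of a value
  have key : ∀ f ∈ P, ∀ y : M, y = (f.map (algebraMap F M)).eval t → y ≠ 0 ∧ y ≠ 1 ∧
      (1 + ε) * (logδ M + logN y (1 - y) (-1)) + C < logH y (1 - y) (-1) ∧
      D * hh - C1 ≤ logH y (1 - y) (-1) ∧ logH y (1 - y) (-1) ≤ D * hh + C1 + Real.log 2 := by
    intro f hf y hy
    obtain ⟨q1, q2, q3, q4, q5⟩ := hval f hf y hy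
    rw [hht, hQM] at q3 q4 q5
    have r1 : D * hh - C1 ≤ logH y (1 - y) (-1) := by
      refine le_trans ?_ (logH_one_low y)
      rw [hQM, le_div_iff₀ hnm]
      linarith
    have r2 : logH y (1 - y) (-1) ≤ D * hh + C1 + Real.log 2 := by
      refine (logH_one_up q1 q2).trans ?_
      rw [hQM]
      have : logHeight₁ y / (nL * mm) ≤ D * hh + C1 := by
        rw [div_le_iff₀ hnm]
        linarith
      linarith
    refine ⟨q1, q2, ?_, r1, r2⟩
    have r3 : logδ M + logN y (1 - y) (-1) ≤ E + (D - 1) * hh + (C1 + C2) := by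
      rw [logN_one, hQM]
      unfold logδ
      rw [← hδM, hQM, ← add_div, div_le_iff₀ hnm]
      have e : (E + (D - 1) * hh + (C1 + C2)) * (nL * mm) =
          mm * (nL * E) + (D - 1) * (mm * (nL * hh)) + nL * mm * C1 + nL * mm * C2 := by ring
      rw [e, hEn]
      have e2 : mm * (δ + U) = mm * δ + mm * U := by ring
      rw [e2]
      linarith
    exact arith hε hη0.le hDε hh0 hC1 hC2 hsmall r3 r1
  refine ⟨M, k1, k2, P.image (fun f : F[X] => (f.map (algebraMap F M)).eval t), ⟨?_, ?_, ?_⟩, ?_⟩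
  · intro x hx
    obtain ⟨f, hf, hfx⟩ := Finset.mem_image.1 hx
    obtain ⟨q1, q2, q3, -, -⟩ := key f hf x hfx.symm
    exact ⟨q1, q2, q3⟩
  · intro x hx y hy
    obtain ⟨f, hf, hfx⟩ := Finset.mem_image.1 hx
    obtain ⟨g, hg, hgy⟩ := Finset.mem_image.1 hy
    obtain ⟨-, -, -, -, q1⟩ := key f hf x hfx.symm
    obtain ⟨-, -, -, q2, -⟩ := key g hg y hgy.symm
    linarith
  · intro x hx y hy v hv
    obtain ⟨f, hf, hfx⟩ := Finset.mem_image.1 hx
    obtain ⟨g, hg, hgy⟩ := Finset.mem_image.1 hy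
    rw [← hfx, ← hgy, den M t v hv f hf, den M t v hv g hg]
  · rw [Finset.card_image_of_injOn hinj]
    exact hcard

/-- **The uniform abc conjecture and the size of the clusters of its exceptions.** (1) If the
inequality with exponent `1 + ε₀` fails then for all `ε > 0` with `27 ε (1 + ε₀) ≤ ε₀` there are `A`
and `n` such that for every `C` there is a cluster with at least `exp (ε₀ / (6 (1 + ε₀) ε))`
elements. (2) The uniform abc conjecture holds if and only if for every `c > 0` there are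
arbitrarily small `ε` for which the clusters of exceptions have less than `exp (c / ε)` elements. -/
theorem result :
    (∀ ε₀ : ℝ, 0 < ε₀ → ¬ Inequality ε₀ → ∀ ε : ℝ, 0 < ε → 27 * ε * (1 + ε₀) ≤ ε₀ →
      ∃ (A : ℝ) (n : ℕ), 0 < n ∧ ∀ C : ℝ, ∃ (K : Type) (_ : Field K) (_ : NumberField K)
        (W : Finset K), Cluster ε C A n W ∧ Real.exp (ε₀ / (6 * (1 + ε₀)) / ε) ≤ W.card) ∧
    (UniformAbc ↔ ∀ c : ℝ, 0 < c → SmallClusters c) := by
  refine ⟨fun ε₀ h0 hbad ε hε hεs => clusters h0 hbad hε hεs, ?_, ?_⟩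
  · intro h c hc δ hδ
    refine ⟨δ / 2, by positivity, by linarith, fun A n _ => ?_⟩
    obtain ⟨C, hC⟩ := h (δ / 2) (by positivity)
    refine ⟨C, fun K _ _ W hW => ?_⟩
    have : W = ∅ := by
      by_contra hne
      obtain ⟨x, hx⟩ := Finset.nonempty_iff_ne_empty.2 hne
      obtain ⟨h1, h2, h3⟩ := hW.1 x hx
      have h4 := hC K x (1 - x) (-1) h1 (sub_ne_zero.2 h2.symm) (neg_ne_zero.2 one_ne_zero)
        (by ring)
      linarith
    rw [this, Finset.card_empty, Nat.cast_zero]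
    exact Real.exp_pos _
  · intro h ε₀ hε₀
    by_contra hbad
    have h1ε : 0 < 1 + ε₀ := by linarith
    obtain ⟨ε, h1, h2, h3⟩ := h (ε₀ / (6 * (1 + ε₀))) (by positivity) (ε₀ / (27 * (1 + ε₀)))
      (by positivity)
    have h4 : 27 * ε * (1 + ε₀) ≤ ε₀ := by
      rw [lt_div_iff₀ (by positivity)] at h2
      linarith
    obtain ⟨A, n, hn, hcl⟩ := clusters hε₀ hbad h1 h4
    obtain ⟨C, hC⟩ := h3 A n hn
    obtain ⟨K, i1, i2, W, hW, hcard⟩ := hcl C
    have := hC K W hW
    linarith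

end Pool.Agent.Results.MP_6e34ef_nt.ExponentialClusters
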