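import Pool.Agent.H431.UC.Conv
import Pool.Graph.R_pool_sql_team_seeded_2aa45f1a.Results.MP_6e34ef_nt.HyperellipticCurvesSuffice

/-!
# The uniform abc conjecture follows from a single curve

`UniformABC`: the uniform abc conjecture, one constant for all number fields of all degrees.

`UniformCurve k f`: Vojta's inequality with `D = 0` for the points of ALL degrees on the single
hyperelliptic curve `y ^ 2 = f(x)` over the number field `k`. If `f` has degree `n ≥ 5` and no
multiple roots, then the curve has genus `g = [(n - 1) / 2] ≥ 2` and the canonical height is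
`(g - 1) h(x) + O(1)`.

`UniformPair k f`: Vojta's inequality, with truncated counting function, for the points of ALL degrees
on the curve `C : y ^ 2 = f(x)` and the reduced divisor `D` of the points at infinity (one point if
`n` is odd, two points if `n` is even). Here `h_{K + D} = (n - 2) / 2 h(x) + O(1)`. For `n = 3` this is
an elliptic curve and its origin.
-/

set_option autoImplicit false

namespace Pool.Agent.Results.MP_6e34ef_nt.OneCurveSuffices

open Polynomial IsDedekindDomain NumberField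

/-- The absolute logarithmic height of `x`. -/
noncomputable def height {L : Type} [Field L] [NumberField L] (x : L) : ℝ :=
  Height.logHeight₁ x / Module.finrank ℚ L

/-- `log δ_L`, the logarithm of the root discriminant. -/
noncomputable def logRootDisc (L : Type) [Field L] [NumberField L] : ℝ :=
  Real.log |(NumberField.discr L : ℝ)| / Module.finrank ℚ L

/-- `log H(a, b, c)` -/
noncomputable def logH {K : Type} [Field K] [NumberField K] (a b c : K) : ℝ :=
  Height.logHeight ![a, b, c] / Module.finrank ℚ K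

open Classical in
/-- `log N(a, b, c)`, the logarithm of the conductor: the sum of `log N(v) / [K : ℚ]` over the primes
`v` at which `a`, `b`, `c` do not all have the same absolute value. -/
noncomputable def logN {K : Type} [Field K] [NumberField K] (a b c : K) : ℝ :=
  (∑ᶠ v : HeightOneSpectrum (𝓞 K),
    if ¬ (v.valuation K a = v.valuation K b ∧ v.valuation K b = v.valuation K c)
    then Real.log (Ideal.absNorm v.asIdeal) else 0) / Module.finrank ℚ K

/-- The uniform abc conjecture: for every `ε > 0` there is `C` such that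
`log H(a, b, c) ≤ (1 + ε) (log δ_K + log N(a, b, c)) + C` for all number fields `K` and all nonzero
`a`, `b`, `c` in `K` with `a + b + c = 0`. -/
def UniformABC : Prop :=
  ∀ ε : ℝ, 0 < ε → ∃ C : ℝ, ∀ (K : Type) [Field K] [NumberField K], ∀ a b c : K,
    a ≠ 0 → b ≠ 0 → c ≠ 0 → a + b + c = 0 →
      logH a b c ≤ (1 + ε) * (logRootDisc K + logN a b c) + C

/-- The genus `[(n - 1) / 2]` of the curve `y ^ 2 = f(x)`, where `n` is the degree of `f`. -/
noncomputable def genus {k : Type} [Field k] (f : k[X]) : ℕ := (f.natDegree - 1) / 2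

/-- Vojta's inequality with `D = 0` for the curve `y ^ 2 = f(x)` over `k`: for all `ε > 0` there is
`c` such that `(g - 1 - ε) h(x) ≤ log δ_L + c` for ALL number fields `L ⊇ k` and all points `(x, y)`
of the curve over `L`. -/
def UniformCurve (k : Type) [Field k] [NumberField k] (f : k[X]) : Prop :=
  ∀ ε : ℝ, 0 < ε → ∃ c : ℝ,
    ∀ (L : Type) [Field L] [NumberField L] [Algebra k L],
    ∀ x y : L, y ^ 2 = aeval x f → ((genus f : ℝ) - 1 - ε) * height x ≤ logRootDisc L + c

open Classical in
/-- The truncated counting function of the points at infinity: the sum of `log N(w) / [L : ℚ]` over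
the primes `w` of `L` with `|x|_w > 1`. -/
noncomputable def infinityCount {L : Type} [Field L] [NumberField L] (x : L) : ℝ :=
  (∑ᶠ w : HeightOneSpectrum (𝓞 L),
    if 1 < w.valuation L x then Real.log (Ideal.absNorm w.asIdeal) else 0) / Module.finrank ℚ L

/-- Vojta's inequality for the curve `y ^ 2 = f(x)` over `k` and the reduced divisor `D` of the points
at infinity: for all `ε > 0` there is `c` such that
`((n - 2) / 2 - ε) h(x) ≤ N^(1)(D, P) + log δ_L + c` for ALL number fields `L ⊇ k` and all points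
`P = (x, y)` of the curve over `L`. -/
def UniformPair (k : Type) [Field k] [NumberField k] (f : k[X]) : Prop :=
  ∀ ε : ℝ, 0 < ε → ∃ c : ℝ,
    ∀ (L : Type) [Field L] [NumberField L] [Algebra k L],
    ∀ x y : L, y ^ 2 = aeval x f →
      (((f.natDegree : ℝ) - 2) / 2 - ε) * height x ≤ infinityCount x + logRootDisc L + c

open Pool.Agent.H431.OC Pool.Agent.H431.UC Pool.Agent.Q290.NF

theorem disc_nonneg (L : Type) [Field L] [NumberField L] :
    0 ≤ Real.log |(NumberField.discr L : ℝ)| := by
  refine Real.log_nonneg ?_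
  have h5 : (1 : ℤ) ≤ |discr L| := Int.one_le_abs (discr_ne_zero L)
  have h6 : |(discr L : ℝ)| = ((|discr L| : ℤ) : ℝ) := by push_cast; rfl
  rw [h6]
  exact_mod_cast h5

theorem logRootDisc_nonneg (L : Type) [Field L] [NumberField L] : 0 ≤ logRootDisc L :=
  div_nonneg (disc_nonneg L) (Nat.cast_nonneg _)

theorem height_nonneg {L : Type} [Field L] [NumberField L] (x : L) : 0 ≤ height x :=
  div_nonneg (Height.zero_le_logHeight₁ _) (Nat.cast_nonneg _)

theorem logN_eq {K : Type} [Field K] [NumberField K] (a b c : K) :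
    logN a b c = wt (Rad a b c) / Module.finrank ℚ K := by
  unfold logN wt
  congr 1
  refine finsum_congr fun w => ?_
  by_cases h : Rad a b c w
  · rw [ind_pos h]
    unfold Rad at h
    rw [if_pos h]
    rfl
  · rw [ind_neg h]
    unfold Rad at h
    rw [if_neg h]

theorem infinityCount_eq {L : Type} [Field L] [NumberField L] (x : L) :
    infinityCount x = sm (fun v : HeightOneSpectrum (𝓞 L) => po (-ord v x)) /
      Module.finrank ℚ L := by
  unfold infinityCount sm
  congr 1
  refine finsum_congr fun w => ?_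
  show _ = po (-ord w x) * ell w
  by_cases h : 1 < w.valuation L x
  · rw [if_pos h, po_pos (n := -ord w x) (by have := (ord_neg_iff w x).2 h; omega), one_mul]
    rfl
  · rw [if_neg h, po_nonpos (n := -ord w x), zero_mul]
    by_contra hcon
    exact h ((ord_neg_iff w x).1 (by omega))

theorem infinityCount_nonneg {L : Type} [Field L] [NumberField L] (x : L) :
    0 ≤ infinityCount x := by
  rw [infinityCount_eq]
  exact div_nonneg (sm_nonneg fun v => po_nonneg _) (Nat.cast_nonneg _)

theorem to_One {k : Type} [Field k] [NumberField k] {f : k[X]} (h : UniformCurve k f) :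
    Pool.Agent.H431.UC.One k f := by
  intro ε hε
  obtain ⟨c, hc⟩ := h ε hε
  refine ⟨max c 0, le_max_right _ _, fun M _ _ _ x y hxy => ?_⟩
  have h1 := hc M x y hxy
  unfold height logRootDisc genus at h1
  have hd : (0 : ℝ) < Module.finrank ℚ M := by exact_mod_cast Module.finrank_pos
  have h2 := mul_le_mul_of_nonneg_right h1 hd.le
  have e1 : ((((f.natDegree - 1) / 2 : ℕ) : ℝ) - 1 - ε) *
      (Height.logHeight₁ x / Module.finrank ℚ M) * Module.finrank ℚ M =
      ((((f.natDegree - 1) / 2 : ℕ) : ℝ) - 1 - ε) * Height.logHeight₁ x := by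
    field_simp
  have e2 : (Real.log |(NumberField.discr M : ℝ)| / Module.finrank ℚ M + c) *
      Module.finrank ℚ M = Real.log |(NumberField.discr M : ℝ)| + Module.finrank ℚ M * c := by
    field_simp
  rw [e1, e2] at h2
  refine h2.trans ?_
  unfold DD
  have : (Module.finrank ℚ M : ℝ) * c ≤ Module.finrank ℚ M * max c 0 :=
    mul_le_mul_of_nonneg_left (le_max_left _ _) hd.le
  linarith

theorem to_LOne {k : Type} [Field k] [NumberField k] {f : k[X]} (h : UniformPair k f) :
    Pool.Agent.H431.UC.LOne k f := by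
  intro ε hε
  obtain ⟨c, hc⟩ := h ε hε
  refine ⟨max c 0, le_max_right _ _, fun M _ _ _ x y hxy => ?_⟩
  have h1 := hc M x y hxy
  rw [infinityCount_eq] at h1
  unfold height logRootDisc at h1
  have hd : (0 : ℝ) < Module.finrank ℚ M := by exact_mod_cast Module.finrank_pos
  have h2 := mul_le_mul_of_nonneg_right h1 hd.le
  have e1 : (((f.natDegree : ℝ) - 2) / 2 - ε) *
      (Height.logHeight₁ x / Module.finrank ℚ M) * Module.finrank ℚ M =
      (((f.natDegree : ℝ) - 2) / 2 - ε) * Height.logHeight₁ x := by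
    field_simp
  have e2 : (sm (fun v : HeightOneSpectrum (𝓞 M) => po (-ord v x)) / Module.finrank ℚ M +
      Real.log |(NumberField.discr M : ℝ)| / Module.finrank ℚ M + c) *
      Module.finrank ℚ M = Real.log |(NumberField.discr M : ℝ)| +
        sm (fun v : HeightOneSpectrum (𝓞 M) => po (-ord v x)) + Module.finrank ℚ M * c := by
    field_simp
    ring
  rw [e1, e2] at h2
  refine h2.trans ?_
  unfold DD
  have : (Module.finrank ℚ M : ℝ) * c ≤ Module.finrank ℚ M * max c 0 :=
    mul_le_mul_of_nonneg_left (le_max_left _ _) hd.le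
  linarith

/-- the uniform abc conjecture from the three point inequality -/
theorem abc_of_three (h : ∀ ε : ℝ, 0 < ε → ∃ C : ℝ, 0 ≤ C ∧
    ∀ (M : Type) [Field M] [NumberField M], ∀ t : M,
      (1 - ε) * Height.logHeight₁ t ≤ DD M + sm (w3 t) + Module.finrank ℚ M * C) :
    UniformABC := by
  intro ε hε
  obtain ⟨η, hη⟩ : ∃ η : ℝ, η = ε / (1 + ε) := ⟨_, rfl⟩
  have hη0 : 0 < η := by rw [hη]; positivity
  have hη1 : (1 - η) * (1 + ε) = 1 := by rw [hη]; field_simp; ring
  obtain ⟨C, hC, H⟩ := h η hη0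
  refine ⟨(1 + ε) * C + Real.log 2, ?_⟩
  intro K _ _ a b c ha hb hc habc
  have e : c = -(a + b) := by linear_combination habc
  rw [logN_eq]
  unfold logH logRootDisc
  obtain ⟨d, hd⟩ : ∃ d : ℝ, d = (Module.finrank ℚ K : ℝ) := ⟨_, rfl⟩
  have hd0 : 0 < d := by rw [hd]; exact_mod_cast Module.finrank_pos
  have h1 := H K (-a / b)
  have h2 := w3_le_rad ha hb hc habc
  have h3 := height_three_le a b
  rw [← e] at h3
  have h4 : Height.logHeight₁ (-a / b) = Height.logHeight₁ (a / b) := by
    rw [neg_div, Height.logHeight₁_neg]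
  rw [h4] at h1
  unfold DD at h1
  rw [← hd] at h1 h3 ⊢
  obtain ⟨A, hA⟩ : ∃ A : ℝ, A = Height.logHeight₁ (a / b) := ⟨_, rfl⟩
  obtain ⟨R, hR⟩ : ∃ R : ℝ, R = wt (Rad a b c) := ⟨_, rfl⟩
  obtain ⟨D, hD⟩ : ∃ D : ℝ, D = Real.log |(NumberField.discr K : ℝ)| := ⟨_, rfl⟩
  rw [← hA] at h1 h3
  rw [← hR] at h2 ⊢
  rw [← hD] at h1 ⊢
  have h5 : A ≤ (1 + ε) * (D + R + d * C) := by
    have h6 : A = (1 + ε) * ((1 - η) * A) := by
      rw [← mul_assoc, mul_comm (1 + ε), hη1, one_mul]
    rw [h6]
    refine mul_le_mul_of_nonneg_left ?_ (by linarith)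
    linarith
  rw [div_le_iff₀ hd0]
  refine (h3.trans (add_le_add_left h5 _)).trans (le_of_eq ?_)
  field_simp
  ring

theorem curve_to_abc {k : Type} [Field k] [NumberField k] {f : k[X]} (hf : Squarefree f)
    (h5 : 5 ≤ f.natDegree) (h : UniformCurve k f) : UniformABC :=
  abc_of_three fun _ hε => three_of_One hf h5 (to_One h) hε

theorem pair_to_abc {k : Type} [Field k] [NumberField k] {f : k[X]} (hf : Squarefree f)
    (h3 : 3 ≤ f.natDegree) (h : UniformPair k f) : UniformABC :=
  abc_of_three fun _ hε => LOne_three hf h3 (to_LOne h) hε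

/-- the polynomial `1 - 4 X ^ l` -/
theorem degree_curve (l : ℕ) : (1 - 4 * X ^ l : ℚ[X]).natDegree = l := by
  have e : (1 - 4 * X ^ l : ℚ[X]) = C (-4) * X ^ l + C 1 := by
    rw [C_neg, C_1]
    have : (C 4 : ℚ[X]) = 4 := rfl
    rw [this]
    ring
  rw [e, natDegree_add_C, natDegree_C_mul_X_pow l (-4 : ℚ) (by norm_num)]

theorem squarefree_curve {l : ℕ} (hl : l ≠ 0) : Squarefree (1 - 4 * X ^ l : ℚ[X]) := by
  have h1 : (1 - 4 * X ^ l : ℚ[X]).Separable := by
    refine ⟨1, -(C (1 / (l : ℚ))) * X, ?_⟩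
    obtain ⟨m, rfl⟩ := Nat.exists_eq_succ_of_ne_zero hl
    have hd : derivative (1 - 4 * X ^ (m + 1) : ℚ[X]) =
        -(4 * (C ((m : ℚ) + 1) * X ^ m)) := by
      have h4 : (4 : ℚ[X]) = C 4 := rfl
      rw [h4, derivative_sub, derivative_one, derivative_C_mul, derivative_X_pow, zero_sub]
      push_cast
      simp
    have hl' : (C (1 / ((m + 1 : ℕ) : ℚ)) : ℚ[X]) * C ((m : ℚ) + 1) = 1 := by
      rw [← C_mul, ← C_1]
      congr 1
      have : ((m : ℚ) + 1) ≠ 0 := by positivity
      push_cast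
      field_simp
    rw [Nat.succ_eq_add_one, hd]
    have : -C (1 / ((m + 1 : ℕ) : ℚ)) * X * -(4 * (C ((m : ℚ) + 1) * X ^ m)) =
        4 * (C (1 / ((m + 1 : ℕ) : ℚ)) * C ((m : ℚ) + 1)) * X ^ (m + 1) := by ring
    rw [this, hl']
    ring
  exact h1.squarefree

theorem aeval_curve {L : Type} [Field L] [Algebra ℚ L] (l : ℕ) (x : L) :
    aeval x (1 - 4 * X ^ l : ℚ[X]) = 1 - 4 * x ^ l := by
  have h4 : (4 : ℚ[X]) = C 4 := rfl
  rw [h4, map_sub, map_mul, aeval_C, map_pow, aeval_X, map_one]
  norm_num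

/-- the converse for the hyperelliptic curves `y ^ 2 = 1 - 4 x ^ l` -/
theorem curve_of_abc {l : ℕ} (hl : Odd l) (h : UniformABC) :
    UniformCurve ℚ (1 - 4 * X ^ l) := by
  intro ε hε
  have hl0 : l ≠ 0 := by rintro rfl; exact absurd hl (by decide)
  have h' : Pool.Agent.Results.MP_6e34ef_nt.HyperellipticCurvesSuffice.UniformABC := h
  obtain ⟨c, hc⟩ := Pool.Agent.Results.MP_6e34ef_nt.HyperellipticCurvesSuffice.of_abc
    (k := 0) hl h' (ε := 2 * ε) (by positivity)
  refine ⟨c, fun L _ _ i x y hxy => ?_⟩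
  rw [aeval_curve] at hxy
  clear i
  have h1 := hc L x y y hxy (by simp)
  have e : (genus (1 - 4 * X ^ l : ℚ[X]) : ℝ) - 1 - ε = ((l : ℝ) - (3 + 2 * ε)) / 2 := by
    unfold genus
    rw [degree_curve]
    obtain ⟨m, rfl⟩ := hl
    have : (2 * m + 1 - 1) / 2 = m := by omega
    rw [this]
    push_cast
    ring
  rw [e]
  exact h1

/-- the converse for the curves `y ^ 2 = 1 - 4 x ^ l` and their points at infinity -/
theorem pair_of_abc {l : ℕ} (hl : 2 ≤ l) (h : UniformABC) :
    UniformPair ℚ (1 - 4 * X ^ l) := by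
  intro ε hε
  have hl0 : l ≠ 0 := by omega
  have hl1 : (2 : ℝ) ≤ l := by exact_mod_cast hl
  obtain ⟨e, he⟩ : ∃ e : ℝ, e = ε / (1 + l / 2) := ⟨_, rfl⟩
  have he0 : 0 < e := by rw [he]; positivity
  have hel : e * (1 + l / 2) = ε := by rw [he]; field_simp
  obtain ⟨C, hC⟩ := h e he0
  have hlog : 0 ≤ Real.log 2 := Real.log_nonneg (by norm_num)
  refine ⟨max C 0 + (1 + e) * Real.log 2 + 5 * Real.log 2, ?_⟩
  intro M _ _ i x s hxy
  rw [aeval_curve] at hxy
  clear i
  rw [degree_curve]
  have hD := logRootDisc_nonneg M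
  have hN := infinityCount_nonneg x
  have hh := height_nonneg x
  have hC0 := le_max_right C 0
  have hC1 := le_max_left C 0
  obtain ⟨d, hd⟩ : ∃ d : ℝ, d = (Module.finrank ℚ M : ℝ) := ⟨_, rfl⟩
  have hd0 : 0 < d := by rw [hd]; exact_mod_cast Module.finrank_pos
  have hc0 : 0 ≤ max C 0 + (1 + e) * Real.log 2 + 5 * Real.log 2 := by positivity
  have hce : 0 ≤ (1 + e) * Real.log 2 := by positivity
  -- small heights
  have hsmall : l / 2 * height x ≤ infinityCount x + logRootDisc M + 5 * Real.log 2 →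
      (((l : ℝ) - 2) / 2 - ε) * height x ≤ infinityCount x + logRootDisc M +
        (max C 0 + (1 + e) * Real.log 2 + 5 * Real.log 2) := by
    intro h1
    have h2 : 0 ≤ (1 + ε) * height x := by positivity
    have e1 : (((l : ℝ) - 2) / 2 - ε) * height x = l / 2 * height x - (1 + ε) * height x := by
      ring
    rw [e1]
    linarith
  have hcurve := height_le_curve hxy
  by_cases hx : x = 0
  · apply hsmall
    rw [hx] at hN ⊢
    have : height (0 : M) = 0 := by unfold height; rw [Height.logHeight₁_zero, zero_div]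
    rw [this, mul_zero]
    positivity
  by_cases hs : s = 0
  · apply hsmall
    rw [hs, Height.logHeight₁_zero, mul_zero, zero_add] at hcurve
    have h2 : (l : ℝ) / 2 * height x ≤ 3 / 2 * Real.log 2 := by
      unfold height
      rw [← hd, mul_div_assoc', div_le_iff₀ hd0]
      rw [← hd] at hcurve
      linarith
    linarith
  by_cases hbig : l / 2 * height x ≤ infinityCount x + logRootDisc M
  · apply hsmall
    linarith
  rw [not_le] at hbig
  have hxl : x ^ l ≠ 0 := pow_ne_zero _ hx
  have h2 : (2 : M) ≠ 0 := two_ne_zero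
  have h4 : (4 : M) ≠ 0 := by norm_num
  have hfac : (1 - s) * (1 + s) = 4 * x ^ l := by linear_combination -hxy
  have hne : (1 - s) * (1 + s) ≠ 0 := by rw [hfac]; exact mul_ne_zero h4 hxl
  have ha : (1 - s) ≠ 0 := left_ne_zero_of_mul hne
  have hb : (1 + s) ≠ 0 := right_ne_zero_of_mul hne
  have hsum : (1 - s) + (1 + s) + -2 = 0 := by ring
  have k1 := rad_le_curve hx hxy
  have k2 := height_curve_triple hs ha hb
  have k3 : sm (fun v : HeightOneSpectrum (𝓞 M) => po (ord v x)) ≤ Height.logHeight₁ x :=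
    (sm_mono (supp_po x) (supp_zeros x) fun v => po_le_max _).trans (zeros_le x)
  have h1 := hC M (1 - s) (1 + s) (-2) ha hb (neg_ne_zero.2 h2) hsum
  rw [logN_eq] at h1
  unfold logH at h1
  rw [infinityCount_eq] at hbig hN ⊢
  unfold height at hbig hh ⊢
  rw [← hd] at hcurve h1 k1 k2 hbig hN hh ⊢
  obtain ⟨S, hS⟩ : ∃ S : ℝ, S = Height.logHeight₁ s := ⟨_, rfl⟩
  obtain ⟨G, hG⟩ : ∃ G : ℝ, G = Height.logHeight ![1 - s, 1 + s, -2] := ⟨_, rfl⟩
  obtain ⟨X', hX⟩ : ∃ X' : ℝ, X' = Height.logHeight₁ x := ⟨_, rfl⟩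
  obtain ⟨Z, hZ⟩ : ∃ Z : ℝ, Z = sm (fun v : HeightOneSpectrum (𝓞 M) => po (ord v x)) := ⟨_, rfl⟩
  obtain ⟨P, hP⟩ : ∃ P : ℝ, P = sm (fun v : HeightOneSpectrum (𝓞 M) => po (-ord v x)) := ⟨_, rfl⟩
  obtain ⟨R, hR⟩ : ∃ R : ℝ, R = wt (Rad (1 - s) (1 + s) (-2)) := ⟨_, rfl⟩
  obtain ⟨D, hDD⟩ : ∃ D : ℝ, D = logRootDisc M := ⟨_, rfl⟩
  rw [← hS] at hcurve k2
  rw [← hG] at k2 h1
  rw [← hX] at hcurve k3 hbig hh ⊢
  rw [← hZ] at k1 k3
  rw [← hP] at k1 hbig hN ⊢
  rw [← hR] at k1 h1
  rw [← hDD] at h1 hD hbig ⊢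
  -- divide by the degree
  have g1 : (l : ℝ) * (X' / d) ≤ 2 * (S / d) + 3 * Real.log 2 := by
    have := div_le_div_of_nonneg_right hcurve hd0.le
    have e1 : (2 * S + 3 * (d * Real.log 2)) / d = 2 * (S / d) + 3 * Real.log 2 := by field_simp
    have e2 : (l : ℝ) * X' / d = l * (X' / d) := by ring
    rwa [e1, e2] at this
  have g2 : S / d ≤ G / d + 3 * Real.log 2 := by
    have := div_le_div_of_nonneg_right k2 hd0.le
    have e1 : (G + 3 * (d * Real.log 2)) / d = G / d + 3 * Real.log 2 := by field_simp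
    rwa [e1] at this
  have g3 : R / d ≤ X' / d + P / d + Real.log 2 := by
    have := div_le_div_of_nonneg_right (k1.trans (add_le_add_left (add_le_add_left k3 P) _)) hd0.le
    have e1 : (X' + P + d * Real.log 2) / d = X' / d + P / d + Real.log 2 := by field_simp
    rwa [e1] at this
  obtain ⟨x', hx'⟩ : ∃ x' : ℝ, x' = X' / d := ⟨_, rfl⟩
  obtain ⟨s', hs'⟩ : ∃ s' : ℝ, s' = S / d := ⟨_, rfl⟩
  obtain ⟨g', hg'⟩ : ∃ g' : ℝ, g' = G / d := ⟨_, rfl⟩
  obtain ⟨r', hr'⟩ : ∃ r' : ℝ, r' = R / d := ⟨_, rfl⟩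
  obtain ⟨p', hp'⟩ : ∃ p' : ℝ, p' = P / d := ⟨_, rfl⟩
  rw [← hx'] at g1 g3 hbig hh ⊢
  rw [← hs'] at g1 g2
  rw [← hg'] at g2 h1
  rw [← hr'] at g3 h1
  rw [← hp'] at g3 hbig hN ⊢
  -- `l / 2 x ≤ (1 + e) (D + x + p + log 2) + C + 9 / 2 log 2`
  have g4 : (1 + e) * (D + r') ≤ (1 + e) * (D + (x' + p' + Real.log 2)) :=
    mul_le_mul_of_nonneg_left (by linarith) (by linarith)
  have g5 : e * (D + p') ≤ e * (l / 2 * x') := mul_le_mul_of_nonneg_left (by linarith) he0.le
  have g6 : e * x' + e * (l / 2 * x') = ε * x' := by rw [← hel]; ring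
  nlinarith

/-- **The uniform abc conjecture follows from a single curve.**
(1) Let `k` be a number field and `f` a polynomial over `k` of degree at least `5` without multiple
roots. Vojta's inequality with `D = 0`, for the points of all degrees on the ONE hyperelliptic curve
`y ^ 2 = f(x)`, implies the uniform abc conjecture.
(2) Let `f` have degree at least `3` and no multiple roots. The truncated inequality for the ONE curve
`y ^ 2 = f(x)` and its points at infinity (for example one elliptic curve and its origin), for the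
points of all degrees, implies the uniform abc conjecture.
(3), (4) For the curves `y ^ 2 = 1 - 4 x ^ l` these are equivalences: the uniform abc conjecture is
equivalent to the inequality with `D = 0` on the curve `y ^ 2 = 1 - 4 x ^ 5` of genus two, and to the
inequality for the elliptic curve `y ^ 2 = 1 - 4 x ^ 3` and its origin. -/
theorem result :
    (∀ (k : Type) [Field k] [NumberField k] (f : k[X]), Squarefree f → 5 ≤ f.natDegree →
      UniformCurve k f → UniformABC) ∧
    (∀ (k : Type) [Field k] [NumberField k] (f : k[X]), Squarefree f → 3 ≤ f.natDegree →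
      UniformPair k f → UniformABC) ∧
    (∀ l : ℕ, Odd l → 5 ≤ l → (UniformABC ↔ UniformCurve ℚ (1 - 4 * X ^ l))) ∧
    (∀ l : ℕ, 3 ≤ l → (UniformABC ↔ UniformPair ℚ (1 - 4 * X ^ l))) := by
  refine ⟨fun k _ _ f hf h5 h => curve_to_abc hf h5 h, fun k _ _ f hf h3 h => pair_to_abc hf h3 h,
    fun l hl h5 => ⟨fun h => curve_of_abc hl h, fun h => ?_⟩,
    fun l h3 => ⟨fun h => pair_of_abc (by omega) h, fun h => ?_⟩⟩
  · exact curve_to_abc (squarefree_curve (by omega)) (by rw [degree_curve]; exact h5) h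
  · exact pair_to_abc (squarefree_curve (by omega)) (by rw [degree_curve]; exact h3) h

end Pool.Agent.Results.MP_6e34ef_nt.OneCurveSuffices
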