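import Mathlib
import Pool.Agent.H432.AU.Abc
import Pool.Agent.H432.AU.P_LOCBU
import Pool.Agent.H432.AU.P_FINU
import Pool.Agent.H432.AU.P_HTU
import Pool.Agent.H432.AU.P_LINEU
import Pool.Agent.H432.AU.P_DISCU

set_option autoImplicit false

/-!
# The uniform abc conjecture is equivalent to Vojta's conjecture with truncated counting function and
# discriminants for the algebraic points on the curves of bounded degree of all smooth varieties

`X ⊂ ℙ^(M - 1)` is a smooth projective variety over a number field `k` of dimension `n ≥ 1` (the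
equations `G i` generate its prime ideal) and `D = D_1 + ⋯ + D_q` is a divisor with normal crossings
on `X`, where `D_i` is the intersection of `X` with the common zeros of forms `F i j` of degree `δ i`.

Vojta's conjecture for algebraic points is the inequality
`h_K(x) + h_D(x) ≤ N^(1)_S(D, x) + d(x) + ε h(x) + C`, where `d(x)` is the logarithm of the root
discriminant of the field of `x`, for the algebraic points of `X` outside of a proper closed subset.
We consider it for the points on curves of arbitrary genus: a curve on `X` over a number field `L`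
over `k` of complexity at most `N` is given by an absolutely irreducible plane curve `P = 0` over `L`
of degree at most `N` and a rational map `φ = (φ_1 : ⋯ : φ_M)` from it to `X`, where the `φ_l` are
polynomials over `L` of degree at most `N`, and its points over `K ⊇ L` are the `φ(z)`, where `z ∈ K^2`
is a point of the plane curve. The proper closed subset `Z` of `X` depends only on `X`, `D` and `N`,
and the inequality holds for all number fields `L` over `k`, all curves over `L` which are not
contained in `Z ∪ D`, all finite sets `S` of primes of `L`, all `ε > 0` and all points over ALL number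
fields `K` over `L`, of arbitrary degree. The constant `C` depends on the curve, `S` and `ε`, but not
on `K`.

The theorem: for every number field `k` this holds for all `X`, `D`, `N` over `k` if and only if the
uniform abc conjecture holds: `log H(a, b, c) ≤ (1 + ε) (log δ_K + log N(a, b, c)) + C` for ALL number
fields `K` and all nonzero `a`, `b`, `c` in `K` with `a + b + c = 0`.
-/

namespace Pool.Agent.Results.MP_6e34ef_nt.VojtaOnAllCurvesUniform

open NumberField IsDedekindDomain MvPolynomial

/-- The absolute logarithmic height of a vector over `L`. -/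
noncomputable def height {L : Type} [Field L] [NumberField L] {ι : Type} [Finite ι]
    (x : ι → L) : ℝ := Height.logHeight x / Module.finrank ℚ L

open Classical in
/-- `rad(P)`: the sum of `log N(v)` over the primes `v` at which the valuations of the three
coordinates of `P` are not all equal, divided by the degree of the field. -/
noncomputable def rad {K : Type} [Field K] [NumberField K] (P : Fin 3 → K) : ℝ :=
  (∑ᶠ v : HeightOneSpectrum (𝓞 K), if ∀ i j, v.valuation K (P i) = v.valuation K (P j) then 0
    else Real.log (Ideal.absNorm v.asIdeal)) / Module.finrank ℚ K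

/-- `log δ_K`, the logarithm of the root discriminant. -/
noncomputable def logRootDisc (K : Type) [Field K] [NumberField K] : ℝ :=
  Real.log |(NumberField.discr K : ℝ)| / Module.finrank ℚ K

/-- The uniform abc conjecture: for every `ε > 0` there is `C` such that
`log H(P) ≤ (1 + ε) (log δ_K + log N(P)) + C` for all number fields `K` and all triples `P` of nonzero
elements of `K` with sum `0`; here `log H = height` and `log N = rad`. -/
def UniformABC : Prop :=
  ∀ ε : ℝ, 0 < ε → ∃ C : ℝ, ∀ (K : Type) [Field K] [NumberField K], ∀ P : Fin 3 → K,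
    P 0 + P 1 + P 2 = 0 → P 0 * P 1 * P 2 ≠ 0 →
    height P ≤ (1 + ε) * (logRootDisc K + rad P) + C

/-- The tangent space at `z` of the affine cone over the variety with the equations `G i`: the vectors
`v` with `∑ j, (∂_j G i)(z) v_j = 0` for all `i`. -/
noncomputable def tangentSpace {k Ω : Type} [Field k] [Field Ω] [Algebra k Ω] {M g : ℕ}
    (G : Fin g → MvPolynomial (Fin M) k) (z : Fin M → Ω) : Submodule Ω (Fin M → Ω) :=
  ⨅ i, LinearMap.ker (∑ j, aeval z (pderiv j (G i)) • LinearMap.proj (R := Ω) (φ := fun _ => Ω) j)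

/-- The variety with the equations `G i` is smooth of dimension `n`: at all points over all extension
fields the tangent space of the cone has dimension `n + 1`. -/
def IsSmooth {k : Type} [Field k] {M g : ℕ} (n : ℕ) (G : Fin g → MvPolynomial (Fin M) k) : Prop :=
  ∀ (Ω : Type) [Field Ω] [Algebra k Ω] (z : Fin M → Ω), z ≠ 0 → (∀ i, aeval z (G i) = 0) →
    Module.finrank Ω (tangentSpace G z) = n + 1

/-- The subschemes `D_i` of the (smooth) variety, where `D_i` has the equations `F i j`, have normal
crossings: at each point `z` of the variety over each extension field one can choose for every `i` one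
of the equations `F i j` such that the differentials of the chosen equations of those `D_i` which
contain `z` are linearly independent on the tangent space. -/
def IsNormalCrossings {k : Type} [Field k] {M g q w : ℕ}
    (G : Fin g → MvPolynomial (Fin M) k) (F : Fin q → Fin w → MvPolynomial (Fin M) k) : Prop :=
  ∀ (Ω : Type) [Field Ω] [Algebra k Ω] (z : Fin M → Ω), z ≠ 0 → (∀ i, aeval z (G i) = 0) →
    ∃ J : Fin q → Fin w, ∀ c : Fin q → Ω,
      (∀ i, c i ≠ 0 → ∀ j, aeval z (F i j) = 0) →
      (∀ v ∈ tangentSpace G z, ∑ i, c i * ∑ l, aeval z (pderiv l (F i (J i))) * v l = 0) → c = 0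

/-- The point `φ(z)` for a point `z` of the plane over `K`: its coordinates are the values of the
polynomials `φ l` (over `L`) at `z`. -/
noncomputable def curvePoint {L K : Type} [Field L] [Field K] [Algebra L K] {M : ℕ}
    (φ : Fin M → MvPolynomial (Fin 2) L) (z : Fin 2 → K) : Fin M → K := fun l => aeval z (φ l)

/-- A curve of complexity at most `N` on the variety with the equations `G i`, given by the plane
curve `P = 0` over `L` and the rational map `φ`: `P` is irreducible over the algebraic closure of `L`,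
the degrees of `P` and of the `φ l` are at most `N`, and the `G i (φ)` vanish on the curve `P = 0`. -/
def IsCurve {k L : Type} [Field k] [Field L] [Algebra k L] {M g : ℕ}
    (G : Fin g → MvPolynomial (Fin M) k) (N : ℕ) (P : MvPolynomial (Fin 2) L)
    (φ : Fin M → MvPolynomial (Fin 2) L) : Prop :=
  Irreducible (MvPolynomial.map (algebraMap L (AlgebraicClosure L)) P) ∧ P.totalDegree ≤ N ∧
    (∀ l, (φ l).totalDegree ≤ N) ∧ ∀ i, P ∣ aeval φ (G i)

/-- The columns of `A` are a basis of the tangent space of the cone at `x` (for a smooth variety of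
dimension `n`). -/
def IsTangentBasis {k L : Type} [Field k] [Field L] [Algebra k L] {M g n : ℕ}
    (G : Fin g → MvPolynomial (Fin M) k) (x : Fin M → L) (A : Matrix (Fin M) (Fin (n + 1)) L) :
    Prop :=
  LinearIndependent L A.col ∧ ∀ c, A.col c ∈ tangentSpace G x

/-- The height `h_K(x)` for the canonical class `K` of the variety: the Gauss map `γ` sends a point to
its embedded tangent space, `γ^* O(1) = K + (n + 1) H` for the hyperplane class `H`; `h_K(x)` is the
height of the vector of the maximal minors of a basis `A` of the tangent space minus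
`(n + 1) h(x)`. -/
noncomputable def canonicalHeight {L : Type} [Field L] [NumberField L] {M n : ℕ} (x : Fin M → L)
    (A : Matrix (Fin M) (Fin (n + 1)) L) : ℝ :=
  height (fun J : Fin (n + 1) → Fin M => (A.submatrix J id).det) - (n + 1) * height x

/-- The height `h_D(x) = ∑ i, h_{D_i}(x)`, where `h_{D_i}(x) = δ i h(x) - h(F i 0 (x) : F i 1 (x) : …)`:
the forms `F i j` are sections of `δ i H` with the fixed part `D_i` and without further base
points. -/
noncomputable def divisorHeight {k L : Type} [Field k] [Field L] [NumberField L] [Algebra k L]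
    {M q w : ℕ} (F : Fin q → Fin w → MvPolynomial (Fin M) k) (δ : Fin q → ℕ) (x : Fin M → L) : ℝ :=
  ∑ i, (δ i * height x - height fun j => aeval x (F i j))

/-- The local height `λ_{D_i}(x) = log ((max_l |x_l|) ^ δ i / max_j |F i j (x)|)` for an absolute value
of `L`, where `D_i` has the equations `F i j` of degree `δ i`. -/
noncomputable def localHeight {k L : Type} [Field k] [Field L] [NumberField L] [Algebra k L]
    {M w : ℕ} (f : AbsoluteValue L ℝ) (F : Fin w → MvPolynomial (Fin M) k) (δ : ℕ)
    (x : Fin M → L) : ℝ :=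
  Real.log ((⨆ l, f (x l)) ^ δ / ⨆ j, f (aeval x (F j)))

open Classical in
/-- The truncated counting function `N^(1)_S(D, x)` of a point over `K`, where `S` is a finite set of
primes of a subfield `L`: the sum of `log N(v)` over the primes `v` of `K` which do not lie over a
prime of `S` and at which one of the local heights `λ_{D_i}(x)` is positive, divided by `[K : ℚ]`. -/
noncomputable def counting {k L K : Type} [Field k] [Field L] [NumberField L] [Field K]
    [NumberField K] [Algebra k K] [Algebra L K] {M q w : ℕ} (S : Finset (HeightOneSpectrum (𝓞 L)))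
    (F : Fin q → Fin w → MvPolynomial (Fin M) k) (δ : Fin q → ℕ) (x : Fin M → K) : ℝ :=
  (∑ᶠ v : HeightOneSpectrum (𝓞 K),
    if (∀ u ∈ S, ¬ v.asIdeal.LiesOver u.asIdeal) ∧
      ∃ i, 0 < localHeight (FinitePlace.mk v).1 (F i) (δ i) x then
      Real.log (Ideal.absNorm v.asIdeal) else 0) / Module.finrank ℚ K

/-- Vojta's conjecture with truncated counting function for the algebraic points on the curves of
bounded degree, for all smooth varieties `X` (with the equations `G i`) and all normal crossings
divisors `D` (with the equations `F i j`) over `k`: for every `N` there is a form `Φ` which does not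
vanish on `X` such that for all number fields `L` over `k`, all curves `(P, φ)` over `L` on `X` of
complexity at most `N` which are not contained in the zero set of `Φ` and not contained in `D`, all
finite sets `S` of primes of `L` and all `ε > 0` there is `C` with
`h_K(x) + h_D(x) ≤ N^(1)_S(D, x) + log δ_K + ε h(x) + C` for all number fields `K` over `L` (without a
bound for the degree) and all points `x = φ(z)` outside `D`, where `z ∈ K^2` is a point of the curve
`P = 0` with `φ(z) ≠ 0`. -/
def VojtaCurves (k : Type) [Field k] [NumberField k] : Prop :=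
  ∀ (n M g q w : ℕ), 1 ≤ n → ∀ (G : Fin g → MvPolynomial (Fin M) k) (e : Fin g → ℕ),
    (∀ i, (G i).IsHomogeneous (e i)) → (Ideal.span (Set.range G)).IsPrime → IsSmooth n G →
    ∀ (F : Fin q → Fin w → MvPolynomial (Fin M) k) (δ : Fin q → ℕ),
    (∀ i j, (F i j).IsHomogeneous (δ i)) → IsNormalCrossings G F → ∀ N : ℕ,
    ∃ (m : ℕ) (Φ : MvPolynomial (Fin M) k), Φ ∉ Ideal.span (Set.range G) ∧ Φ.IsHomogeneous m ∧
      ∀ (L : Type) [Field L] [NumberField L] [Algebra k L],
      ∀ (P : MvPolynomial (Fin 2) L) (φ : Fin M → MvPolynomial (Fin 2) L), IsCurve G N P φ →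
      ¬ P ∣ aeval φ Φ → (∀ i, ∃ j, ¬ P ∣ aeval φ (F i j)) →
      ∀ (S : Finset (HeightOneSpectrum (𝓞 L))) (ε : ℝ), 0 < ε →
      ∃ C : ℝ, ∀ (K : Type) [Field K] [NumberField K] [Algebra L K] [Algebra k K]
        [IsScalarTower k L K], ∀ z : Fin 2 → K, aeval z P = 0 → curvePoint φ z ≠ 0 →
        (∀ i, ∃ j, aeval (curvePoint φ z) (F i j) ≠ 0) →
        ∀ A : Matrix (Fin M) (Fin (n + 1)) K, IsTangentBasis G (curvePoint φ z) A →
        canonicalHeight (curvePoint φ z) A + divisorHeight F δ (curvePoint φ z) ≤
          counting S F δ (curvePoint φ z) + logRootDisc K + ε * height (curvePoint φ z) + C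

theorem mem_tangentSpace {k Ω : Type} [Field k] [Field Ω] [Algebra k Ω] {M g : ℕ}
    {G : Fin g → MvPolynomial (Fin M) k} {z v : Fin M → Ω} :
    v ∈ tangentSpace G z ↔ ∀ i, ∑ j, aeval z (pderiv j (G i)) * v j = 0 := by
  unfold tangentSpace
  rw [Submodule.mem_iInf]
  refine forall_congr' fun i => ?_
  rw [LinearMap.mem_ker, LinearMap.sum_apply]
  rfl

theorem tangentSpace_eq {k Ω : Type} [Field k] [Field Ω] [Algebra k Ω] {M g : ℕ}
    (G : Fin g → MvPolynomial (Fin M) k) (z : Fin M → Ω) :
    tangentSpace G z = Pool.Agent.N750.TS G z := by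
  ext v
  rw [mem_tangentSpace, Pool.Agent.N750.mem_TS]

theorem rad_eq {K : Type} [Field K] [NumberField K] (P : Fin 3 → K) :
    rad P = Pool.Agent.Q290.NF.wt (Pool.Agent.H432.TC.NE3 P) / Module.finrank ℚ K := by
  unfold rad Pool.Agent.Q290.NF.wt
  congr 1
  refine finsum_congr fun v => ?_
  by_cases h : ∀ i j, v.valuation K (P i) = v.valuation K (P j)
  · rw [if_pos h, Pool.Agent.Q290.NF.ind_neg fun h' => h' h]
  · rw [if_neg h, Pool.Agent.Q290.NF.ind_pos (P := Pool.Agent.H432.TC.NE3 P) h]
    rfl

/-- a local height is positive -/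
theorem localHeight_pos {k L : Type} [Field k] [Field L] [NumberField L] [Algebra k L]
    {M w : ℕ} (v : HeightOneSpectrum (𝓞 L)) (F : Fin w → MvPolynomial (Fin M) k) (δ : ℕ)
    (x : Fin M → L) (hx : x ≠ 0) (hxF : ∃ j, aeval x (F j) ≠ 0) :
    0 < localHeight (FinitePlace.mk v).1 F δ x ↔
      ∀ j, Pool.Agent.W180.OP.av (Sum.inr v : Pool.Agent.W180.OP.Pl L) (aeval x (F j)) <
        Pool.Agent.W180.OP.nrm (Pool.Agent.W180.OP.av (Sum.inr v : Pool.Agent.W180.OP.Pl L)) x ^ δ
    := by
  set f := Pool.Agent.W180.OP.av (Sum.inr v : Pool.Agent.W180.OP.Pl L) with hf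
  obtain ⟨j0, hj0⟩ := hxF
  have hF0 : (fun j => aeval x (F j)) ≠ 0 := fun h => hj0 (congrFun h j0)
  have h1 := Pool.Agent.W180.OP.nrm_pos f hx
  have h2 := Pool.Agent.W180.OP.nrm_pos f hF0
  have e1 : localHeight (FinitePlace.mk v).1 F δ x = Real.log (Pool.Agent.W180.OP.nrm f x ^ δ /
      Pool.Agent.W180.OP.nrm f (fun j => aeval x (F j))) := rfl
  rw [e1, Real.log_pos_iff (by positivity), one_lt_div h2]
  constructor
  · intro h j
    exact (Pool.Agent.W180.OP.le_nrm f (fun j => aeval x (F j)) j).trans_lt h
  · intro h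
    obtain ⟨j, hj⟩ := Pool.Agent.W180.OP.exists_nrm f j0.pos (fun j => aeval x (F j))
    rw [← hj]
    exact h j

theorem counting_eq {k L K : Type} [Field k] [Field L] [NumberField L] [Field K]
    [NumberField K] [Algebra k K] [Algebra L K] {M q w : ℕ} (S : Finset (HeightOneSpectrum (𝓞 L)))
    (F : Fin q → Fin w → MvPolynomial (Fin M) k) (δ : Fin q → ℕ) (x : Fin M → K) (hx : x ≠ 0)
    (hxF : ∀ i, ∃ j, aeval x (F i j) ≠ 0) :
    counting S F δ x = Pool.Agent.Q290.NF.wt (fun v => ¬ Pool.Agent.H432.AU.Ov
      (S : Set (HeightOneSpectrum (𝓞 L))) v ∧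
      Pool.Agent.H432.TC.DM F δ x v) / Module.finrank ℚ K := by
  unfold counting Pool.Agent.Q290.NF.wt
  congr 1
  refine finsum_congr fun v => ?_
  have h1 : (∃ i, 0 < localHeight (FinitePlace.mk v).1 (F i) (δ i) x) ↔
      Pool.Agent.H432.TC.DM F δ x v := by
    unfold Pool.Agent.H432.TC.DM
    exact exists_congr fun i => localHeight_pos v (F i) (δ i) x hx (hxF i)
  have h2 : (∀ u ∈ S, ¬ v.asIdeal.LiesOver u.asIdeal) ↔
      ¬ Pool.Agent.H432.AU.Ov (S : Set (HeightOneSpectrum (𝓞 L))) v := by
    unfold Pool.Agent.H432.AU.Ov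
    push Not
    rfl
  by_cases h : ¬ Pool.Agent.H432.AU.Ov (S : Set (HeightOneSpectrum (𝓞 L))) v ∧
      Pool.Agent.H432.TC.DM F δ x v
  · rw [if_pos (by rw [h1, h2]; exact h), Pool.Agent.Q290.NF.ind_pos
      (P := fun v => ¬ Pool.Agent.H432.AU.Ov (S : Set (HeightOneSpectrum (𝓞 L))) v ∧
        Pool.Agent.H432.TC.DM F δ x v) h]
    rfl
  · rw [if_neg (by rw [h1, h2]; exact h), Pool.Agent.Q290.NF.ind_neg
      (P := fun v => ¬ Pool.Agent.H432.AU.Ov (S : Set (HeightOneSpectrum (𝓞 L))) v ∧
        Pool.Agent.H432.TC.DM F δ x v) h]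

/-- the inequality `ABCD` for all extensions of a field -/
theorem abcd (h : UniformABC) (E : Type) [Field E] [NumberField E] :
    Pool.Agent.H432.AU.ABCD E fun _ => True := by
  intro ε hε
  obtain ⟨C, hC⟩ := h ε hε
  refine ⟨C, fun K _ _ _ _ P h0 h1 => ?_⟩
  have hd : (0 : ℝ) < Module.finrank ℚ K := by exact_mod_cast Module.finrank_pos
  have h2 := hC K P h0 h1
  rw [rad_eq] at h2
  unfold height logRootDisc at h2
  have h3 := mul_le_mul_of_nonneg_right h2 hd.le
  rw [div_mul_cancel₀ _ hd.ne'] at h3
  refine h3.trans (le_of_eq ?_)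
  field_simp
  ring

/-- the uniform abc conjecture implies the inequality on curves -/
theorem of_abc (k : Type) [Field k] [NumberField k] (habc : UniformABC) : VojtaCurves k := by
  classical
  intro n M g q w hn G e hG hI hX F δ hF hD N
  obtain ⟨n', rfl⟩ : ∃ n', n = n' + 1 := ⟨n - 1, by omega⟩
  have hsm : Pool.Agent.N750.Sm (n' + 1) G := by
    intro Ω _ _ z hz hzG
    rw [← tangentSpace_eq]
    exact hX Ω z hz hzG
  have hnc : Pool.Agent.H432.RC.NCD G F := by
    intro Ω _ _ z hz hzG
    obtain ⟨J, hJ⟩ := hD Ω z hz hzG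
    refine ⟨J, fun c hc hv => hJ c hc fun v hvm => hv v ?_⟩
    rw [← tangentSpace_eq]
    exact hvm
  have locbu := Pool.Agent.H432.AU.locbu Pool.Agent.H432.AU.nrmu
  have finu := Pool.Agent.H432.AU.finu Pool.Agent.H432.AU.nrmu locbu
  have htu := Pool.Agent.H432.AU.htu Pool.Agent.H432.AU.nrmu locbu finu
  have lineu := Pool.Agent.H432.AU.lineu Pool.Agent.H432.AU.nrmu locbu
  obtain ⟨m, Φ, hΦm, hΦI, hmain⟩ := Pool.Agent.H432.AU.main_acU locbu finu htu
    Pool.Agent.H432.AU.discu G e hG hI hsm F δ hF hnc N
  refine ⟨m, Φ, hΦI, hΦm, ?_⟩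
  intro L _ _ _ P φ hc hz hD' S ε hε
  obtain ⟨C, hC⟩ := hmain L (fun _ => True) (fun E _ _ _ => ⟨fun _ => True, fun _ _ _ _ => trivial,
    Pool.Agent.H432.AU.line_of_abc lineu (abcd habc E)⟩) P φ hc.1 hc.2.1 hc.2.2.1 hc.2.2.2 hz hD'
    S ε hε
  refine ⟨C, fun K _ _ _ _ _ s hs hx0 hsF A hA => ?_⟩
  have hd : (0 : ℝ) < Module.finrank ℚ K := by exact_mod_cast Module.finrank_pos
  have hTB : Pool.Agent.N750.IsTB G (curvePoint φ s) (fun l c => A l c) := by
    refine ⟨hA.1, fun c => ?_⟩
    rw [← tangentSpace_eq]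
    exact hA.2 c
  have h1 := hC K trivial s hs hx0 hsF (fun l c => A l c) hTB
  unfold Pool.Agent.H432.AC.LHS at h1
  have e0 : Pool.Agent.H432.AU.ptU φ s = curvePoint φ s := rfl
  rw [e0] at h1
  rw [counting_eq S F δ _ hx0 hsF]
  have e1 : Pool.Agent.N750.mv (fun l c => A l c) =
      fun J : Fin (n' + 1 + 1) → Fin M => (A.submatrix J id).det := rfl
  rw [e1] at h1
  unfold canonicalHeight divisorHeight height logRootDisc
  set D : ℝ := (Module.finrank ℚ K : ℝ) with hDdef
  have e2 : ∑ i, ((δ i : ℝ) * (Height.logHeight (curvePoint φ s) / D) -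
      Height.logHeight (fun j => aeval (curvePoint φ s) (F i j)) / D) =
      (∑ i, ((δ i : ℝ) * Height.logHeight (curvePoint φ s) -
      Height.logHeight (fun j => aeval (curvePoint φ s) (F i j)))) / D := by
    rw [Finset.sum_div]
    exact Finset.sum_congr rfl fun i _ => by ring
  rw [e2]
  have h3 := div_le_div_of_nonneg_right h1 hd.le
  push_cast
  calc _ = (Height.logHeight (fun J : Fin (n' + 1 + 1) → Fin M => (A.submatrix J id).det) -
        (n' + 2) * Height.logHeight (curvePoint φ s) +
        ∑ i, ((δ i : ℝ) * Height.logHeight (curvePoint φ s) -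
        Height.logHeight (fun j => aeval (curvePoint φ s) (F i j)))) / D := by ring
    _ ≤ _ := h3
    _ = _ := by
      field_simp

/-- the inequality on curves implies the uniform abc conjecture for the fields over `k` -/
theorem to_abc' (k : Type) [Field k] [NumberField k] (h : VojtaCurves k) (ε : ℝ) (hε : 0 < ε) :
    ∃ C : ℝ, ∀ (K : Type) [Field K] [NumberField K] [Algebra k K], ∀ P : Fin 3 → K,
      P 0 + P 1 + P 2 = 0 → P 0 * P 1 * P 2 ≠ 0 →
      height P ≤ (1 + ε) * (logRootDisc K + rad P) + C := by
  classical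
  set G : Fin 0 → MvPolynomial (Fin 2) k := fun i => i.elim0 with hG
  have hrange : Set.range G = ∅ := Set.range_eq_empty G
  have hI : (Ideal.span (Set.range G)).IsPrime := by
    rw [hrange, Ideal.span_empty]
    exact Ideal.isPrime_bot
  have hTS : ∀ (Ω : Type) [Field Ω] [Algebra k Ω] (z : Fin 2 → Ω), tangentSpace G z = ⊤ := by
    intro Ω _ _ z
    unfold tangentSpace
    exact iInf_of_empty _
  have hX : IsSmooth 1 G := by
    intro Ω _ _ z _ _
    rw [hTS, finrank_top, Module.finrank_fin_fun]
  set F : Fin 3 → Fin 1 → MvPolynomial (Fin 2) k := fun i _ => ![X 0, X 1, X 0 + X 1] i with hF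
  have hFh : ∀ i j, (F i j).IsHomogeneous 1 := by
    intro i j
    fin_cases i
    · exact isHomogeneous_X _ _
    · exact isHomogeneous_X _ _
    · exact (isHomogeneous_X _ _).add (isHomogeneous_X _ _)
  have hF0 : ∀ {Ω : Type} [Field Ω] [Algebra k Ω] (z : Fin 2 → Ω),
      aeval z (F 0 0) = z 0 := by
    intro Ω _ _ z
    show aeval z (X 0 : MvPolynomial (Fin 2) k) = z 0
    rw [aeval_X]
  have hF1 : ∀ {Ω : Type} [Field Ω] [Algebra k Ω] (z : Fin 2 → Ω),
      aeval z (F 1 0) = z 1 := by
    intro Ω _ _ z
    show aeval z (X 1 : MvPolynomial (Fin 2) k) = z 1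
    rw [aeval_X]
  have hF2 : ∀ {Ω : Type} [Field Ω] [Algebra k Ω] (z : Fin 2 → Ω),
      aeval z (F 2 0) = z 0 + z 1 := by
    intro Ω _ _ z
    show aeval z (X 0 + X 1 : MvPolynomial (Fin 2) k) = z 0 + z 1
    rw [map_add, aeval_X, aeval_X]
  have hNC : IsNormalCrossings G F := by
    intro Ω _ _ z hz _
    refine ⟨fun _ => 0, fun c hc hv => ?_⟩
    have e0 : ∀ v : Fin 2 → Ω, ∑ l, aeval z (pderiv l (F 0 0)) * v l = v 0 := by
      intro v
      show ∑ l, aeval z (pderiv l (X 0 : MvPolynomial (Fin 2) k)) * v l = v 0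
      rw [Fin.sum_univ_two, pderiv_X_self, pderiv_X_of_ne (by decide)]
      simp
    have e1 : ∀ v : Fin 2 → Ω, ∑ l, aeval z (pderiv l (F 1 0)) * v l = v 1 := by
      intro v
      show ∑ l, aeval z (pderiv l (X 1 : MvPolynomial (Fin 2) k)) * v l = v 1
      rw [Fin.sum_univ_two, pderiv_X_self, pderiv_X_of_ne (by decide)]
      simp
    have e2 : ∀ v : Fin 2 → Ω, ∑ l, aeval z (pderiv l (F 2 0)) * v l = v 0 + v 1 := by
      intro v
      show ∑ l, aeval z (pderiv l (X 0 + X 1 : MvPolynomial (Fin 2) k)) * v l = v 0 + v 1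
      rw [Fin.sum_univ_two]
      simp only [map_add]
      rw [pderiv_X_self, pderiv_X_self, pderiv_X_of_ne (by decide), pderiv_X_of_ne (by decide)]
      simp
    have hv' : ∀ v : Fin 2 → Ω, c 0 * v 0 + c 1 * v 1 + c 2 * (v 0 + v 1) = 0 := by
      intro v
      have h1 := hv v (by rw [hTS]; exact Submodule.mem_top)
      rw [Fin.sum_univ_three, e0, e1, e2] at h1
      exact h1
    have a1 := hv' ![1, 0]
    have a2 := hv' ![0, 1]
    simp at a1 a2
    have hc2 : c 2 = 0 := by
      by_contra hne
      have hc0 : c 0 ≠ 0 := fun h0 => hne (by rw [h0, zero_add] at a1; exact a1)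
      have b1 := hc 0 hc0 0
      have b2 := hc 2 hne 0
      rw [hF0] at b1
      rw [hF2, b1, zero_add] at b2
      apply hz
      funext i
      fin_cases i
      · exact b1
      · exact b2
    rw [hc2, add_zero] at a1 a2
    funext i
    fin_cases i
    · exact a1
    · exact a2
    · exact hc2
  obtain ⟨m, Φ, hΦI, hΦh, hΦ⟩ := h 1 2 0 3 1 le_rfl G (fun i => i.elim0) (fun i => i.elim0) hI hX F
    (fun _ => 1) hFh hNC 1
  rw [hrange, Ideal.span_empty, Ideal.mem_bot] at hΦI
  set P0 : MvPolynomial (Fin 2) k := X 1 with hP0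
  set φ : Fin 2 → MvPolynomial (Fin 2) k := ![X 0, 1] with hφ
  have hcL : ∀ {K : Type} [Field K] [Algebra k K] (z : Fin 2 → K),
      curvePoint φ z = ![z 0, 1] := by
    intro K _ _ z
    funext l
    fin_cases l
    · show aeval z (X 0 : MvPolynomial (Fin 2) k) = z 0
      rw [aeval_X]
    · show aeval z (1 : MvPolynomial (Fin 2) k) = 1
      rw [map_one]
  have hirr : ∀ (Ω : Type) [Field Ω], Irreducible (X 1 : MvPolynomial (Fin 2) Ω) := fun Ω _ =>
    (MvPolynomial.X_prime).irreducible
  have hrc : IsCurve G 1 P0 φ := by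
    refine ⟨?_, ?_, ?_, fun i => i.elim0⟩
    · rw [hP0, map_X]
      exact hirr _
    · rw [hP0, totalDegree_X]
    · intro l
      fin_cases l
      · show (X 0 : MvPolynomial (Fin 2) k).totalDegree ≤ 1
        rw [totalDegree_X]
      · show (1 : MvPolynomial (Fin 2) k).totalDegree ≤ 1
        rw [totalDegree_one]
        exact zero_le_one
  have hz1 : ¬ P0 ∣ aeval φ Φ := by
    rintro ⟨R, hR⟩
    -- the form vanishes at all points `(a : 1)`
    have hval : ∀ a : k, aeval (![a, 1] : Fin 2 → k) Φ = 0 := by
      intro a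
      have h1 := congrArg (aeval (![a, 0] : Fin 2 → k)) hR
      rw [map_mul, hP0, aeval_X] at h1
      have h2 : (![a, 0] : Fin 2 → k) 1 = 0 := rfl
      rw [h2, zero_mul] at h1
      have h3 := MvPolynomial.comp_aeval_apply φ
        (MvPolynomial.aeval (![a, 0] : Fin 2 → k) : MvPolynomial (Fin 2) k →ₐ[k] k) Φ
      have h4 : aeval (![a, 0] : Fin 2 → k) (aeval φ Φ) =
          aeval (curvePoint φ (![a, 0] : Fin 2 → k)) Φ := h3
      rw [h4, hcL] at h1
      exact h1
    have hmul : ∀ z : Fin 2 → k, aeval z (X 1 * Φ) = 0 := by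
      intro z
      rw [map_mul, aeval_X]
      by_cases hz : z 1 = 0
      · rw [hz, zero_mul]
      · have h6 : z = fun i => z 1 * (![z 0 / z 1, 1] : Fin 2 → k) i := by
          funext i
          fin_cases i
          · show z 0 = z 1 * (z 0 / z 1)
            field_simp
          · show z 1 = z 1 * 1
            ring
        have h7 : aeval z Φ = 0 := by
          rw [h6, Pool.Agent.H432.RC.aeval_hom hΦh, hval, mul_zero]
        rw [h7, mul_zero]
    have h8 : (X 1 * Φ : MvPolynomial (Fin 2) k) = 0 :=
      MvPolynomial.funext fun z => by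
        rw [map_zero]
        exact hmul z
    rcases mul_eq_zero.1 h8 with h9 | h9
    · exact (X_ne_zero (1 : Fin 2)) h9
    · exact hΦI h9
  have hz2 : ∀ i, ∃ j, ¬ P0 ∣ aeval φ (F i j) := by
    intro i
    refine ⟨0, ?_⟩
    rintro ⟨R, hR⟩
    have h1 := congrArg (aeval (![1, 0] : Fin 2 → k)) hR
    rw [map_mul, hP0, aeval_X] at h1
    have h2 : (![1, 0] : Fin 2 → k) 1 = 0 := rfl
    rw [h2, zero_mul] at h1
    have h3 := MvPolynomial.comp_aeval_apply φ
      (MvPolynomial.aeval (![1, 0] : Fin 2 → k) : MvPolynomial (Fin 2) k →ₐ[k] k) (F i 0)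
    have h4 : aeval (![1, 0] : Fin 2 → k) (aeval φ (F i 0)) =
        aeval (curvePoint φ (![1, 0] : Fin 2 → k)) (F i 0) := h3
    rw [h4, hcL] at h1
    revert h1
    fin_cases i
    · show aeval _ (F 0 0) ≠ 0
      rw [hF0]
      exact one_ne_zero
    · show aeval _ (F 1 0) ≠ 0
      rw [hF1]
      exact one_ne_zero
    · show aeval _ (F 2 0) ≠ 0
      rw [hF2]
      show (1 : k) + 1 ≠ 0
      rw [one_add_one_eq_two]
      exact two_ne_zero
  obtain ⟨C, hC⟩ := hΦ k P0 φ hrc hz1 hz2 ∅ (ε / (1 + ε)) (by positivity)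
  -- the height of P
  set A3 : Fin 3 × Fin 2 → ℚ := fun x => ![![1, 0], ![0, 1], ![-1, -1]] x.1 x.2 with hA3
  set C1 : ℝ := Real.log (Nat.card (Fin 2)) + Height.logHeight A3 with hC1
  refine ⟨(1 + ε) * |C| + |C1| + 1, fun L _ _ _ P hP0' hP1 => ?_⟩
  have hd : (0 : ℝ) < Module.finrank ℚ L := by exact_mod_cast Module.finrank_pos
  set s : Fin 2 → L := ![P 0 / P 1, 1] with hs
  set z0 : Fin 2 → L := ![P 0 / P 1, 0] with hz0
  have hne : ∀ i, P i ≠ 0 := by
    intro i hi
    apply hP1
    fin_cases i
    · rw [show P 0 = 0 from hi, zero_mul, zero_mul]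
    · rw [show P 1 = 0 from hi, mul_zero, zero_mul]
    · rw [show P 2 = 0 from hi, mul_zero]
  have hP1' : P 1 ≠ 0 := hne 1
  have hs0 : s ≠ 0 := fun h0 => one_ne_zero (congrFun h0 1)
  have hcs : curvePoint φ z0 = s := hcL z0
  have hsum : s 0 + s 1 = -(P 2 / P 1) := by
    show P 0 / P 1 + 1 = -(P 2 / P 1)
    field_simp
    linear_combination hP0'
  have hsF : ∀ i, ∃ j, aeval (curvePoint φ z0) (F i j) ≠ 0 := by
    intro i
    refine ⟨0, ?_⟩
    rw [hcs]
    fin_cases i
    · show aeval _ (F 0 0) ≠ 0
      rw [hF0]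
      exact div_ne_zero (hne 0) (hne 1)
    · show aeval _ (F 1 0) ≠ 0
      rw [hF1]
      exact one_ne_zero
    · show aeval _ (F 2 0) ≠ 0
      rw [hF2, hsum]
      exact neg_ne_zero.2 (div_ne_zero (hne 2) (hne 1))
  have hTB : IsTangentBasis G (curvePoint φ z0) (1 : Matrix (Fin 2) (Fin (1 + 1)) L) := by
    refine ⟨?_, fun cc => by rw [hTS]; exact Submodule.mem_top⟩
    exact Matrix.linearIndependent_cols_iff_isUnit.2 isUnit_one
  have h1 := hC L z0 (by rw [hP0, aeval_X]; rfl) (by rw [hcs]; exact hs0) hsF
    (1 : Matrix (Fin 2) (Fin (1 + 1)) L) hTB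
  rw [counting_eq ∅ F _ _ (by rw [hcs]; exact hs0) hsF] at h1
  rw [hcs] at h1 hsF
  have h2 : height s ≤ canonicalHeight s (1 : Matrix (Fin 2) (Fin (1 + 1)) L) +
      divisorHeight F (fun _ => 1) s := by
    unfold canonicalHeight divisorHeight
    have e1 : ∀ i, height (fun j => aeval s (F i j)) = 0 := by
      intro i
      unfold height
      rw [Pool.Agent.N750.logHeight_one, zero_div]
    have e2 : 0 ≤ height (fun J : Fin (1 + 1) → Fin 2 =>
        ((1 : Matrix (Fin 2) (Fin (1 + 1)) L).submatrix J id).det) := by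
      unfold height
      exact div_nonneg (Height.logHeight_nonneg _) hd.le
    simp only [e1]
    rw [Fin.sum_univ_three]
    push_cast
    linarith
  have h3 : Pool.Agent.Q290.NF.wt (fun v : HeightOneSpectrum (𝓞 L) => ¬ Pool.Agent.H432.AU.Ov
      ((∅ : Finset (HeightOneSpectrum (𝓞 k))) : Set (HeightOneSpectrum (𝓞 k))) v ∧
      Pool.Agent.H432.TC.DM F (fun _ => 1) s v) / Module.finrank ℚ L ≤ rad P := by
    rw [rad_eq]
    refine div_le_div_of_nonneg_right ?_ hd.le
    refine Pool.Agent.Q290.NF.wt_mono (Pool.Agent.H432.TC.NE3_fin hne) ?_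
    rintro v ⟨-, i, hi⟩ heq
    have h4 := hi 0
    rw [pow_one] at h4
    obtain ⟨l, hl⟩ := Pool.Agent.W180.OP.exists_nrm (Pool.Agent.W180.OP.av
      (Sum.inr v : Pool.Agent.W180.OP.Pl L)) (n := 2) (by norm_num) s
    rw [← hl] at h4
    have h5 : v.valuation L (aeval s (F i 0)) < v.valuation L (s l) :=
      Pool.Agent.H432.TC.mk_lt_iff.1 h4
    have hdv : ∀ i, v.valuation L (P i / P 1) = 1 := by
      intro i
      rw [map_div₀, heq i 1]
      exact div_self ((Valuation.ne_zero_iff _).2 (hne 1))
    have h6 : v.valuation L (s l) = 1 := by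
      fin_cases l
      · exact hdv 0
      · exact map_one _
    have h7 : v.valuation L (aeval s (F i 0)) = 1 := by
      fin_cases i
      · show v.valuation L (aeval s (F 0 0)) = _
        rw [hF0]
        exact hdv 0
      · show v.valuation L (aeval s (F 1 0)) = _
        rw [hF1]
        exact map_one _
      · show v.valuation L (aeval s (F 2 0)) = _
        rw [hF2, hsum, Valuation.map_neg]
        exact hdv 2
    rw [h6, h7] at h5
    exact lt_irrefl _ h5
  have h8 : height P ≤ height s + |C1| := by
    have e1 := Height.logHeight_linearMap_apply_le (fun x => algebraMap ℚ L (A3 x)) s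
    have e2 : (fun j => ∑ i, algebraMap ℚ L (A3 (j, i)) * s i) = (P 1)⁻¹ • P := by
      funext j
      rw [Fin.sum_univ_two, Pi.smul_apply, smul_eq_mul]
      fin_cases j
      · show algebraMap ℚ L 1 * (P 0 / P 1) + algebraMap ℚ L 0 * 1 = (P 1)⁻¹ * P 0
        rw [map_one, map_zero]
        field_simp
        ring
      · show algebraMap ℚ L 0 * (P 0 / P 1) + algebraMap ℚ L 1 * 1 = (P 1)⁻¹ * P 1
        rw [map_one, map_zero]
        field_simp
        ring
      · show algebraMap ℚ L (-1) * (P 0 / P 1) + algebraMap ℚ L (-1) * 1 = (P 1)⁻¹ * P 2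
        rw [map_neg, map_one]
        field_simp
        linear_combination -hP0'
    have e6 : Height.logHeight (fun x => algebraMap ℚ L (A3 x)) =
        Module.finrank ℚ L * Height.logHeight A3 :=
      Pool.Agent.Helper259.HtExt.logHeight_ext (K := ℚ) (L := L) _
    rw [e2, Height.logHeight_smul_eq_logHeight _ (inv_ne_zero hP1'), e6,
      totalWeight_eq_finrank] at e1
    have e3 := div_le_div_of_nonneg_right e1 hd.le
    unfold height
    have e4 := le_abs_self C1
    have e5 : ((Module.finrank ℚ L : ℝ) * Real.log (Nat.card (Fin 2)) +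
        Module.finrank ℚ L * Height.logHeight A3 + Height.logHeight s) / Module.finrank ℚ L =
        C1 + Height.logHeight s / Module.finrank ℚ L := by
      rw [hC1]
      field_simp
    rw [e5] at e3
    linarith
  have h9 : height s ≤ (logRootDisc L + rad P) + ε / (1 + ε) * height s + C := by linarith
  have h10 : height s ≤ (1 + ε) * (logRootDisc L + rad P) + (1 + ε) * C := by
    have e1 : height s * (1 / (1 + ε)) ≤ (logRootDisc L + rad P) + C := by
      have e2 : height s * (1 / (1 + ε)) = height s - ε / (1 + ε) * height s := by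
        field_simp
        ring
      rw [e2]
      linarith
    have e3 := mul_le_mul_of_nonneg_left e1 (by linarith : (0 : ℝ) ≤ 1 + ε)
    have e4 : (1 + ε) * (height s * (1 / (1 + ε))) = height s := by field_simp
    rw [e4] at e3
    linarith
  have h11 := le_abs_self C
  have h12 : (1 + ε) * C ≤ (1 + ε) * |C| := mul_le_mul_of_nonneg_left h11 (by linarith)
  linarith

theorem val_eq_of_liesOver {L K : Type} [Field L] [NumberField L] [Field K] [NumberField K]
    [Algebra L K] {Q : HeightOneSpectrum (𝓞 K)} {v : HeightOneSpectrum (𝓞 L)}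
    (h : Q.asIdeal.LiesOver v.asIdeal) {x y : L} (hxy : v.valuation L x = v.valuation L y) :
    Q.valuation K (algebraMap L K x) = Q.valuation K (algebraMap L K y) := by
  have h1 : ∀ a b : L, Q.valuation K (algebraMap L K a) < Q.valuation K (algebraMap L K b) ↔
      v.valuation L a < v.valuation L b := by
    intro a b
    have h2 := Pool.Agent.H432.TC.over_lt h (x := a) (y := b)
    have h3 := Pool.Agent.H432.TC.mk_lt_iff (v := Q) (x := algebraMap L K a)
      (y := algebraMap L K b)
    have h4 := Pool.Agent.H432.TC.mk_lt_iff (v := v) (x := a) (y := b)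
    rw [← h3, ← h4]
    exact h2
  rcases lt_trichotomy (Q.valuation K (algebraMap L K x)) (Q.valuation K (algebraMap L K y)) with
    h5 | h5 | h5
  · exact absurd ((h1 x y).1 h5) (by rw [hxy]; exact lt_irrefl _)
  · exact h5
  · exact absurd ((h1 y x).1 h5) (by rw [hxy]; exact lt_irrefl _)

/-- the inequality on curves implies the uniform abc conjecture -/
theorem to_abc (k : Type) [Field k] [NumberField k] (h : VojtaCurves k) : UniformABC := by
  intro ε hε
  obtain ⟨C, hC⟩ := to_abc' k h ε hε
  obtain ⟨C2, hC2, hcomp⟩ := Pool.Agent.H432.AU.discu ℚ k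
  refine ⟨(1 + ε) * C2 + C, fun K₀ _ _ P h0 h1 => ?_⟩
  obtain ⟨K, _, _, _, _, i5, i6, i7, hdeg, hdisc⟩ := hcomp K₀
  obtain rfl : i5 = DivisionRing.toRatAlgebra := Subsingleton.elim _ _
  have hd0 : (0 : ℝ) < Module.finrank ℚ K₀ := by exact_mod_cast Module.finrank_pos
  have hd1 : (0 : ℝ) < Module.finrank K₀ K := by exact_mod_cast Module.finrank_pos
  have hmul : (Module.finrank ℚ K : ℝ) = Module.finrank ℚ K₀ * Module.finrank K₀ K := by
    exact_mod_cast (Module.finrank_mul_finrank ℚ K₀ K).symm
  have hne : ∀ i, P i ≠ 0 := by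
    intro i hi
    apply h1
    fin_cases i
    · rw [show P 0 = 0 from hi, zero_mul, zero_mul]
    · rw [show P 1 = 0 from hi, mul_zero, zero_mul]
    · rw [show P 2 = 0 from hi, mul_zero]
  have h2 := hC K (fun i => algebraMap K₀ K (P i)) (by rw [← map_add, ← map_add, h0, map_zero])
    (by rw [← map_mul, ← map_mul]; exact (map_ne_zero _).2 h1)
  have h3 : height (fun i => algebraMap K₀ K (P i)) = height P := by
    unfold height
    rw [Pool.Agent.Helper259.HtExt.logHeight_ext (K := K₀) (L := K) P, hmul]
    field_simp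
  have h4 : rad (fun i => algebraMap K₀ K (P i)) ≤ rad P := by
    rw [rad_eq, rad_eq]
    have h5 := (Pool.Agent.H432.TC.cnt_ext (L := K₀) (E := K) (Pool.Agent.H432.TC.NE3 P)
      (Pool.Agent.H432.TC.NE3_fin hne)
      (Pool.Agent.H432.TC.NE3 fun i => algebraMap K₀ K (P i)) ?_).2
    · rw [hmul, div_le_div_iff₀ (by positivity) hd0]
      calc _ ≤ Module.finrank K₀ K * Pool.Agent.Q290.NF.wt (Pool.Agent.H432.TC.NE3 P) *
            Module.finrank ℚ K₀ := mul_le_mul_of_nonneg_right h5 hd0.le
        _ = _ := by ring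
    · intro Q hQ
      obtain ⟨v, hv⟩ := Pool.Agent.H432.TC.exists_under (L := K₀) Q
      refine ⟨v, fun heq => hQ fun i j => ?_, hv⟩
      exact val_eq_of_liesOver hv (heq i j)
  have h6 : logRootDisc K ≤ logRootDisc K₀ + C2 := hdisc
  rw [h3] at h2
  refine h2.trans ?_
  have h7 : (1 + ε) * (logRootDisc K + rad (fun i => algebraMap K₀ K (P i))) ≤
      (1 + ε) * ((logRootDisc K₀ + C2) + rad P) :=
    mul_le_mul_of_nonneg_left (add_le_add h6 h4) (by linarith)
  linarith

/-- **The uniform abc conjecture and Vojta's conjecture on curves.** For every number field `k` the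
uniform abc conjecture for all number fields is equivalent to Vojta's conjecture with truncated
counting function for the algebraic points of arbitrary degree on the curves of bounded degree, of any
genus, of all smooth projective varieties over `k` and all normal crossings divisors, with an
exceptional set which depends only on the variety, the divisor and the bound for the degree of the
curve. -/
theorem result (k : Type) [Field k] [NumberField k] : UniformABC ↔ VojtaCurves k :=
  ⟨of_abc k, to_abc k⟩

end Pool.Agent.Results.MP_6e34ef_nt.VojtaOnAllCurvesUniform
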